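import Pool.Agent.H30.EE.TargetsH

/-!
# MP_70ba79_ag: targets of the board `ee_modules`, part I (the height inequality, section 5)
-/

set_option autoImplicit false

namespace Pool.Agent.H30.EE

open MvPolynomial SC Pool.Agent.H27.LV Pool.Agent.H17.VG

section Defs

variable {R K : Type} [Field R] [Field K] [Algebra R K] {n r : ℕ}

/-- a chart for the subspace `L`: the reduced echelon basis `z` for the columns `J` -/
structure Cht (L : Submodule K (Fin (n + 1) → K)) (J : Fin (r + 1) → Fin (n + 1))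
    (z : Fin (r + 1) → Fin (n + 1) → K) : Prop where
  span : Submodule.span K (Set.range z) = L
  id : ∀ i j, z i (J j) = if i = j then 1 else 0

/-- coordinates modulo `L` -/
def fq (J : Fin (r + 1) → Fin (n + 1)) (z : Fin (r + 1) → Fin (n + 1) → K)
    (w : Fin (n + 1) → K) (j : Fin (n + 1)) : K := w j - ∑ i, w (J i) * z i j

/-- rows of the matrix of the height inequality -/
abbrev Row (J : Fin (r + 1) → Fin (n + 1)) : Type :=
  Fin (r + 1) ⊕ (Fin (r + 1) × {j : Fin (n + 1) // ∀ i, J i ≠ j})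

/-- velocity of the flag `(x, L)` under the operator `τ`, in the chart `J, z` -/
def colF (J : Fin (r + 1) → Fin (n + 1)) (z : Fin (r + 1) → Fin (n + 1) → K)
    (x : Fin (n + 1) → K) (τ : Op R K n) : Row J → K
  | Sum.inl i => opV τ x (J i)
  | Sum.inr p => fq J z (opV τ (z p.1)) p.2.1

/-- the column of the vector `x` -/
def colX (J : Fin (r + 1) → Fin (n + 1)) (x : Fin (n + 1) → K) : Row J → K
  | Sum.inl i => x (J i)
  | Sum.inr _ => 0

/-- The matrix of the height inequality. Columns: operators `τ c`, then `D`, then `x`. -/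
def matF {κ : Type} (J : Fin (r + 1) → Fin (n + 1)) (z : Fin (r + 1) → Fin (n + 1) → K)
    (x : Fin (n + 1) → K) (D : Derivation R K K) (τ : κ → Op R K n) :
    Matrix (Row J) (κ ⊕ Fin 2) K :=
  Matrix.of fun a c => match c with
    | Sum.inl c => colF J z x (τ c) a
    | Sum.inr t => if t = 0 then colF J z x (D, 0) a else colX J x a

end Defs

/-- an operator which does not decrease orders at `v` -/
structure LocOp {R k K : Type} [Field R] [Field k] [Field K] [Algebra k K] [Algebra R K] {n : ℕ}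
    (v : DV k K) (τ : Op R K n) : Prop where
  der : ∀ z : K, ge v (v.ord z) (τ.1 z)
  mat : ∀ i j, ge v 0 (τ.2 i j)

/-- ICE: charts exist, at each place there is an integral chart -/
def T_ICE : Prop := ∀ (k K : Type) [Field k] [IsAlgClosed k] [CharZero k] [Field K] [Algebra k K]
  [Algebra.EssFiniteType k K], Algebra.trdeg k K = 1 → ∀ (n r : ℕ)
  (L : Submodule K (Fin (n + 1) → K)), Module.finrank K L = r + 1 →
  (∀ v : DV k K, ∃ (J : Fin (r + 1) → Fin (n + 1)) (z : Fin (r + 1) → Fin (n + 1) → K),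
    Cht L J z ∧ ∀ i j, ge v 0 (z i j)) ∧
  ∀ (J : Fin (r + 1) → Fin (n + 1)) (z : Fin (r + 1) → Fin (n + 1) → K), Cht L J z →
    dg k L = ∑ᶠ v : DV k K, mo v (mnr z) ∧ ∀ (v : DV k K) (J' : Fin (r + 1) → Fin (n + 1))
      (z' : Fin (r + 1) → Fin (n + 1) → K), Cht L J' z' → (∀ i j, ge v 0 (z' i j)) →
      (Matrix.of fun i j : Fin (r + 1) => z i (J' j)).det ≠ 0 ∧
      v.ord (Matrix.of fun i j : Fin (r + 1) => z i (J' j)).det = mo v (mnr z)

/-- ICD: change of the coordinates modulo `L` -/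
def T_ICD : Prop := ∀ (K : Type) [Field K] (n r : ℕ) (L : Submodule K (Fin (n + 1) → K))
  (J J' : Fin (r + 1) → Fin (n + 1)) (z z' : Fin (r + 1) → Fin (n + 1) → K), Cht L J z →
  Cht L J' z' → ∀ e1 : {j : Fin (n + 1) // ∀ i, J' i ≠ j} ≃ {j : Fin (n + 1) // ∀ i, J i ≠ j},
  ∃ ε : K, ε ^ 2 = 1 ∧ (Matrix.of fun i j : Fin (r + 1) => z i (J' j)).det *
    (Matrix.of fun (j l : {j : Fin (n + 1) // ∀ i, J' i ≠ j}) =>
      fq J' z' (Pi.single (e1 l).1 1) j.1).det = ε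

/-- ICC: change of the chart -/
def T_ICC : Prop := ∀ (R K : Type) [Field R] [Field K] [Algebra R K] (n r : ℕ)
  (L : Submodule K (Fin (n + 1) → K)) (J J' : Fin (r + 1) → Fin (n + 1))
  (z z' : Fin (r + 1) → Fin (n + 1) → K), Cht L J z → Cht L J' z' → ∀ x ∈ L,
  ∀ (κ : Type) [Fintype κ] [DecidableEq κ] (e0 : κ ⊕ Fin 2 ≃ Row J) (e0' : κ ⊕ Fin 2 ≃ Row J'),
  ∃ ε : K, ε ^ 2 = 1 ∧ ∀ (D : Derivation R K K) (τ : κ → Op R K n),
    ((matF J z x D τ).submatrix e0 id).det =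
      ε * (Matrix.of fun i j : Fin (r + 1) => z i (J' j)).det ^ n *
        ((matF J' z' x D τ).submatrix e0' id).det

/-- ITL: elements of `TL`; the operator is unique -/
def T_ITL : Prop := ∀ (R K : Type) [Field R] [Field K] [CharZero K] [Algebra R K] (n e : ℕ)
  (F : MvPolynomial (Fin (n + 1)) K) (D : Derivation R K K) (x : Fin (n + 1) → K)
  (L : Submodule K (Fin (n + 1) → K)), Sys (e + 1) F D → Indep x (fun i => D (x i)) →
  (∀ G, G ∈ TL R (e + 1) F x L ↔ G ∈ Md (e + 1) x ∧ ∃ τ : Op R K n, opF τ F = G ∧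
    (∃ c : K, opV τ x = c • x) ∧ ∀ w ∈ L, opV τ w ∈ L) ∧
  (∀ τ τ' : Op R K n, opF τ F = opF τ' F → (∃ c : K, opV τ x = c • x) →
    (∃ c : K, opV τ' x = c • x) → τ = τ') ∧
  ∀ (r : ℕ) (J : Fin (r + 1) → Fin (n + 1)) (z : Fin (r + 1) → Fin (n + 1) → K), Cht L J z →
    x ∈ L → ∀ τ : Op R K n, opF τ F ∈ Md (e + 1) x →
    (opF τ F ∈ TL R (e + 1) F x L ↔ colF J z x τ ∈ Submodule.span K {colF J z x (D, 0), colX J x})

/-- ISU: the operators with symbol in `Md` move the flag in all directions -/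
def T_ISU : Prop := ∀ (R K : Type) [Field R] [Field K] [CharZero K] [Algebra R K] (n e r : ℕ)
  (F : MvPolynomial (Fin (n + 1)) K) (D : Derivation R K K) (x : Fin (n + 1) → K)
  (L : Submodule K (Fin (n + 1) → K)), Sys (e + 1) F D → Indep x (fun i => D (x i)) →
  eval x F ≠ 0 → ∀ (J : Fin (r + 1) → Fin (n + 1)) (z : Fin (r + 1) → Fin (n + 1) → K),
  Cht L J z → x ∈ L → (∀ w : Row J → K, ∃ (τ : Op R K n) (c : K), opF τ F ∈ Md (e + 1) x ∧
    colF J z x τ = w + c • colX J x) ∧ LinearIndependent K ![colF J z x (D, 0), colX J x]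

/-- IFR: dimension -/
def T_IFR : Prop := ∀ (R K : Type) [Field R] [Field K] [CharZero K] [Algebra R K] (n e r : ℕ)
  (F : MvPolynomial (Fin (n + 1)) K) (D : Derivation R K K) (x : Fin (n + 1) → K)
  (L : Submodule K (Fin (n + 1) → K)), Sys (e + 1) F D → Indep x (fun i => D (x i)) →
  eval x F ≠ 0 → x ∈ L → Module.finrank K L = r + 1 →
  Module.finrank K (TL R (e + 1) F x L) + (r + 1) * (n - r + 1) =
    Module.finrank K (Md (e + 1) x) + 2

/-- IOM: the alternating form -/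
def T_IOM : Prop := ∀ (R K : Type) [Field R] [Field K] [CharZero K] [Algebra R K] (n e r s : ℕ)
  (F : MvPolynomial (Fin (n + 1)) K) (D : Derivation R K K) (x : Fin (n + 1) → K)
  (L : Submodule K (Fin (n + 1) → K)), Sys (e + 1) F D → Indep x (fun i => D (x i)) →
  eval x F ≠ 0 → x ∈ L → ∀ (J : Fin (r + 1) → Fin (n + 1)) (z : Fin (r + 1) → Fin (n + 1) → K),
  Cht L J z → ∀ e0 : Fin s ⊕ Fin 2 ≃ Row J,
  ∃ ω : Md (e + 1) x [⋀^Fin s]→ₗ[K] K, ω ≠ 0 ∧
    (∀ g : Fin s → Md (e + 1) x,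
      (∃ i, ((g i : Md (e + 1) x) : MvPolynomial (Fin (n + 1)) K) ∈ TL R (e + 1) F x L) →
      ω g = 0) ∧
    ∀ (g : Fin s → Md (e + 1) x) (τ : Fin s → Op R K n),
      (∀ i, opF (τ i) F = ((g i : Md (e + 1) x) : MvPolynomial (Fin (n + 1)) K)) →
      ω g = ((matF J z x D τ).submatrix e0 id).det

/-- ILO: local operators -/
def T_ILO : Prop := ∀ (R k K : Type) [Field R] [Field k] [IsAlgClosed k] [CharZero k] [Field K]
  [Algebra k K] [Algebra R K] [Algebra.EssFiniteType k K], Algebra.trdeg k K = 1 →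
  ∀ (n e : ℕ) (F : MvPolynomial (Fin (n + 1)) k) (D : Derivation k K K) (D' : Derivation R K K),
  D ≠ 0 → (∀ z, D' z = D z) → cD D' (up K F) = 0 →
  (∀ G : MvPolynomial (Fin (n + 1)) k, G.IsHomogeneous (e + 1) →
    ∃ τ : Op R K n, RatOp k τ ∧ opF τ (up K F) = up K G) →
  ∀ (v : DV k K) (G : MvPolynomial (Fin (n + 1)) K), G.IsHomogeneous (e + 1) →
  (∀ m, ge v 0 (coeff m G)) → ∃ τ : Op R K n, LocOp v τ ∧ opF τ (up K F) = G

/-- ILC: local estimate, all places -/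
def T_ILC : Prop := ∀ (R k K : Type) [Field R] [Field k] [IsAlgClosed k] [CharZero k] [Field K]
  [Algebra k K] [Algebra R K] [Algebra.EssFiniteType k K], Algebra.trdeg k K = 1 →
  ∀ (n r : ℕ) (D : Derivation k K K) (D' : Derivation R K K), D ≠ 0 → (∀ z, D' z = D z) →
  ∀ (L : Submodule K (Fin (n + 1) → K)) (v : DV k K) (J : Fin (r + 1) → Fin (n + 1))
  (z : Fin (r + 1) → Fin (n + 1) → K), Cht L J z → (∀ i j, ge v 0 (z i j)) → ∀ x ∈ L, x ≠ 0 →
  ∀ (κ : Type) [Fintype κ] [DecidableEq κ] (e0 : κ ⊕ Fin 2 ≃ Row J) (τ : κ → Op R K n),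
  (∀ c, LocOp v (τ c)) →
  ge v ((r + 1) * mo v x + ordD v D) ((matF J z x D' τ).submatrix e0 id).det

/-- ILG: local estimate with the gain from the hypersurface -/
def T_ILG : Prop := ∀ (R k K : Type) [Field R] [Field k] [IsAlgClosed k] [CharZero k] [Field K]
  [Algebra k K] [Algebra R K] [Algebra.EssFiniteType k K], Algebra.trdeg k K = 1 →
  ∀ (n e r : ℕ) (F : MvPolynomial (Fin (n + 1)) k), F.IsHomogeneous (e + 1) →
  (∀ z : Fin (n + 1) → k, z ≠ 0 → ∃ j, eval z (pderiv j F) ≠ 0) →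
  ∀ (D : Derivation k K K) (D' : Derivation R K K), D ≠ 0 → (∀ z, D' z = D z) →
  ∀ (L : Submodule K (Fin (n + 1) → K)) (v : DV k K) (J : Fin (r + 1) → Fin (n + 1))
  (z : Fin (r + 1) → Fin (n + 1) → K), Cht L J z → (∀ i j, ge v 0 (z i j)) → ∀ x ∈ L, x ≠ 0 →
  eval x (up K F) ≠ 0 →
  ∀ (κ : Type) [Fintype κ] [DecidableEq κ] (e0 : κ ⊕ Fin 2 ≃ Row J) (τ : κ → Op R K n),
  (∀ c, LocOp v (τ c)) → (∀ c, eval x (opF (τ c) (up K F)) = 0) →
  ge v ((r + 1) * mo v x + ordD v D + (v.ord (eval x (up K F)) - (e + 1) * mo v x) - 1)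
    ((matF J z x D' τ).submatrix e0 id).det

/-- HIN: the height inequality (5) -/
def T_HIN : Prop := ∀ (R k K : Type) [Field R] [Field k] [IsAlgClosed k] [CharZero k] [Field K]
  [Algebra k K] [Algebra R K] [Algebra.EssFiniteType k K], Algebra.trdeg k K = 1 →
  ∀ (n e r : ℕ) (F : MvPolynomial (Fin (n + 1)) k), F.IsHomogeneous (e + 1) →
  (∀ z : Fin (n + 1) → k, z ≠ 0 → ∃ j, eval z (pderiv j F) ≠ 0) →
  ∀ (D : Derivation k K K) (D' : Derivation R K K), D ≠ 0 → (∀ z, D' z = D z) →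
  Sys (e + 1) (up K F) D' →
  (∀ G : MvPolynomial (Fin (n + 1)) k, G.IsHomogeneous (e + 1) →
    ∃ τ : Op R K n, RatOp k τ ∧ opF τ (up K F) = up K G) →
  ∀ (x : Fin (n + 1) → K), Indep x (fun i => D (x i)) → eval x (up K F) ≠ 0 →
  ∀ S : Finset (DV k K), (∀ v, v ∉ S → v.ord (eval x (up K F)) = (e + 1) * mo v x) →
  ∀ L : Submodule K (Fin (n + 1) → K), x ∈ L → Module.finrank K L = r + 1 →
  dS k n (e + 1) (Md (e + 1) x) - dS k n (e + 1) (TL R (e + 1) (up K F) x L) ≤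
    canDeg D + S.card - n * dg k L + ((r : ℤ) - e) * hgt k x

end Pool.Agent.H30.EE
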