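import Pool.Agent.H30.EE.TargetsU
import Pool.Agent.H30.EE.TargetsI
import Pool.Agent.H17.VG.TargetsG

/-!
# MP_70ba79_ag: targets of the board `ee_modules`, part G (curves of small height, section 6)
-/

set_option autoImplicit false

namespace Pool.Agent.H30.EE

open MvPolynomial SC Pool.Agent.H27.LV Pool.Agent.H17.VG

/-- restriction to the curve as a linear map -/
noncomputable def resL {K : Type} [Field K] {n r : ℕ} (z : Fin (r + 1) → Fin (n + 1) → K) :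
    MvPolynomial (Fin (n + 1)) K →ₗ[K] Polynomial K :=
  (aeval (R := K) (fun i => ∑ j, Polynomial.C (z j i) *
    (Polynomial.X : Polynomial K) ^ (j : ℕ))).toLinearMap

/-- multiples of `p` -/
noncomputable def mlt {K : Type} [Field K] (p : Polynomial K) : Submodule K (Polynomial K) :=
  LinearMap.range (LinearMap.mulLeft K p)

/-- TRI: leading exponents of a lattice: the `O_v`-module generated by the columns of `u` -/
def T_TRI : Prop := ∀ (k K : Type) [Field k] [Field K] [Algebra k K] (v : DV k K) (N : ℕ)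
  (ι : Type) [Fintype ι] (u : Fin (N + 1) → ι → K), mnr u ≠ 0 →
  ∃ e : Fin (N + 1) → ℤ, ∑ i, e i = mo v (mnr u) ∧ ∀ i,
    (∃ c : ι → K, (∀ j, ge v 0 (c j)) ∧ (∀ l, i < l → ∑ j, c j * u l j = 0) ∧
      ∑ j, c j * u i j ≠ 0 ∧ v.ord (∑ j, c j * u i j) = e i) ∧
    ∀ c : ι → K, (∀ j, ge v 0 (c j)) → (∀ l, i < l → ∑ j, c j * u l j = 0) →
      ge v (e i) (∑ j, c j * u i j)

/-- WGT: weights -/
def T_WGT : Prop := ∀ (N N' : ℕ) (e e' e'' : ℕ → ℚ),
  (∀ i ≤ N, ∀ j ≤ N', e'' (i + j) ≤ e i + e' j) →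
  ∑ l ∈ Finset.range (N + N' + 1), e'' l ≤
    (N + N' + 1) / (N + 1) * ∑ i ∈ Finset.range (N + 1), e i +
    (N + N' + 1) / (N' + 1) * ∑ j ∈ Finset.range (N' + 1), e' j

/-- VLL: superadditivity at one place -/
def T_VLL : Prop := ∀ (k K : Type) [Field k] [Field K] [Algebra k K] (v : DV k K) (n r a b : ℕ)
  (z : Fin (r + 1) → Fin (n + 1) → K), LinearIndependent K z →
  (mo v (mnr (RM (a + b) z)) : ℚ) ≤
    (r * (a + b) + 1 : ℚ) / (r * a + 1) * mo v (mnr (RM a z)) +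
    (r * (a + b) + 1 : ℚ) / (r * b + 1) * mo v (mnr (RM b z))

/-- VOL: (6a) -/
def T_VOL : Prop := ∀ (k K : Type) [Field k] [IsAlgClosed k] [CharZero k] [Field K] [Algebra k K]
  [Algebra.EssFiniteType k K], Algebra.trdeg k K = 1 → ∀ (n r : ℕ)
  (z : Fin (r + 1) → Fin (n + 1) → K), LinearIndependent K z →
  (∀ a, 0 ≤ Da k a z ∧ Da k a z ≤ Da k (a + 1) z) ∧
  ∀ b : ℕ, (b * (2 * r * b + 1) : ℤ) * Da k 2 z ≤ (2 * r + 1) * Da k (2 * b) z

/-- GPS: (6b), one general constant linear form -/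
def T_GPS : Prop := ∀ (k K : Type) [Field k] [Infinite k] [Field K] [Algebra k K] (n r : ℕ)
  (z : Fin (r + 1) → Fin (n + 1) → K), LinearIndependent K z →
  ∀ (Y : Submodule K (Polynomial K)) [FiniteDimensional K Y], ∃ l : Fin (n + 1) → k,
    resC z (lin (ul K l)) ≠ 0 ∧
    Module.finrank K ↥(Y ⊓ mlt (resC z (lin (ul K l)))) ≤ Module.finrank K Y - r

/-- GPT: (6b), products of constant linear forms -/
def T_GPT : Prop := ∀ (k K : Type) [Field k] [Infinite k] [Field K] [Algebra k K] (n r t : ℕ)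
  (z : Fin (r + 1) → Fin (n + 1) → K), LinearIndependent K z →
  ∀ (Y : Submodule K (Polynomial K)) [FiniteDimensional K Y],
  ∃ P : MvPolynomial (Fin (n + 1)) k, P.IsHomogeneous t ∧ P ≠ 0 ∧ resC z (up K P) ≠ 0 ∧
    Module.finrank K ↥(Y ⊓ mlt (resC z (up K P))) ≤ Module.finrank K Y - r * t

/-- GEN: (6c), the ideal of the curve is generated by quadratic forms -/
def T_GEN : Prop := ∀ (K : Type) [Field K] (n r a : ℕ) (z : Fin (r + 1) → Fin (n + 1) → K),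
  LinearIndependent K z →
  Iz (a + 2) z = Submodule.span K {H | ∃ G ∈ Iz 2 z, ∃ M : Mon (n + 1) a, H = mono K M.1 * G}

/-- RMD: restrictions of the forms which vanish at `x = z 0` -/
def T_RMD : Prop := ∀ (K : Type) [Field K] (n r a : ℕ) (z : Fin (r + 1) → Fin (n + 1) → K),
  LinearIndependent K z →
  (∀ P : Polynomial K, P ∈ (Md a (z 0)).map (resL z) ↔ P.natDegree ≤ r * a ∧ P.coeff 0 = 0) ∧
  Module.finrank K (Md a (z 0)) = Module.finrank K (Iz a z) + r * a ∧ Iz a z ≤ Md a (z 0)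

/-- CH1: from `T` to `T + I_d` -/
def T_CH1 : Prop := ∀ (k K : Type) [Field k] [IsAlgClosed k] [CharZero k] [Field K] [Algebra k K]
  [Algebra.EssFiniteType k K], Algebra.trdeg k K = 1 → ∀ (n r a : ℕ)
  (z : Fin (r + 1) → Fin (n + 1) → K), LinearIndependent K z →
  ∀ T ≤ Sd K n (a + 2),
  -(((Module.finrank K ↥(T ⊔ Iz (a + 2) z) : ℤ) - Module.finrank K T) * Da k 2 z) ≤
    dS k n (a + 2) (T ⊔ Iz (a + 2) z) - dS k n (a + 2) T

/-- CH2: from `W ≥ I_d` to `M_d` -/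
def T_CH2 : Prop := ∀ (k K : Type) [Field k] [IsAlgClosed k] [CharZero k] [Field K] [Algebra k K]
  [Algebra.EssFiniteType k K], Algebra.trdeg k K = 1 → ∀ (n r d : ℕ)
  (z : Fin (r + 1) → Fin (n + 1) → K), 1 ≤ r → 1 ≤ d → LinearIndependent K z →
  ∀ W ≤ Md d (z 0), Iz d z ≤ W → ∀ m' : ℕ,
  Module.finrank K W + m' = Module.finrank K (Md d (z 0)) →
  -(((m' + r - 1) / r : ℕ) * hgt k (z 0)) + Da k (m' / r) z ≤
    dS k n d (Md d (z 0)) - dS k n d W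

/-- CHA: the chain (6d) -/
def T_CHA : Prop := ∀ (k K : Type) [Field k] [IsAlgClosed k] [CharZero k] [Field K] [Algebra k K]
  [Algebra.EssFiniteType k K], Algebra.trdeg k K = 1 → ∀ (n r a : ℕ)
  (z : Fin (r + 1) → Fin (n + 1) → K), 1 ≤ r → LinearIndependent K z →
  ∀ T ≤ Md (a + 2) (z 0), ∀ m' : ℕ,
  Module.finrank K (T.map (resL z)) + m' = r * (a + 2) →
  -(((Module.finrank K (Md (a + 2) (z 0)) : ℤ) - Module.finrank K T - m') * Da k 2 z) -
    ((m' + r - 1) / r : ℕ) * hgt k (z 0) + Da k (m' / r) z ≤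
    dS k n (a + 2) (Md (a + 2) (z 0)) - dS k n (a + 2) T

/-- value of `dG (A φ)` along the curve `φ = ∑ s ^ j z_j`, where `A z_j = a_j` -/
noncomputable def dA {K : Type} [Field K] {n r : ℕ} (z a : Fin (r + 1) → Fin (n + 1) → K)
    (G : MvPolynomial (Fin (n + 1)) K) : Polynomial K :=
  ∑ j : Fin (r + 1), Polynomial.X ^ (j : ℕ) * resC z (dir (a j) G)

/-- RG0: rules: linearity, Leibniz, operators -/
def T_RG0 : Prop := ∀ (R K : Type) [Field R] [Field K] [CharZero K] [Algebra R K] (n r : ℕ)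
  (z a : Fin (r + 1) → Fin (n + 1) → K) (G G' : MvPolynomial (Fin (n + 1)) K),
  dA z a (G + G') = dA z a G + dA z a G' ∧ (∀ c : K, dA z a (c • G) = c • dA z a G) ∧
  dA z a (G * G') = dA z a G * resC z G' + resC z G * dA z a G' ∧
  (∀ τ : Op R K n, pD τ.1 (resC z G) = resC z (opF τ G) + dA z (fun j => opV τ (z j)) G) ∧
  ∀ A : Matrix (Fin (n + 1)) (Fin (n + 1)) K, (∀ j, Matrix.mulVec A (z j) = a j) →
    resC z (opF ((0, A) : Op R K n) G) = dA z a G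

/-- RG1: a relation -/
def T_RG1 : Prop := ∀ (R K : Type) [Field R] [Field K] [CharZero K] [Algebra R K] (n e r : ℕ)
  (F : MvPolynomial (Fin (n + 1)) K) (z : Fin (r + 1) → Fin (n + 1) → K),
  F.IsHomogeneous (e + 1) → LinearIndependent K z →
  Module.finrank K ((TL R (e + 1) F (z 0) (Submodule.span K (Set.range z))).map (resL z)) <
    r * (r + 1) →
  ∃ a : Fin (r + 1) → Fin (n + 1) → K, a ≠ 0 ∧ a 0 = 0 ∧
    (∀ j, a j ∈ Submodule.span K (Set.range z)) ∧ dA z a F = 0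

/-- RG2: the bracket -/
def T_RG2 : Prop := ∀ (R K : Type) [Field R] [Field K] [CharZero K] [Algebra R K] (n e r : ℕ)
  (F : MvPolynomial (Fin (n + 1)) K) (z a : Fin (r + 1) → Fin (n + 1) → K),
  F.IsHomogeneous (e + 1) → LinearIndependent K z → a 0 = 0 →
  (∀ j, a j ∈ Submodule.span K (Set.range z)) → dA z a F = 0 → eval (z 0) F ≠ 0 →
  ∀ τ : Op R K n, (∀ j, opV τ (z j) = 0) → resC z (opF τ F) = 0 →
    dA z a (opF τ F) ∈ (TL R (e + 1) F (z 0) (Submodule.span K (Set.range z))).map (resL z)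

/-- RG3: the relation comes from a vector field on the curve -/
def T_RG3 : Prop := ∀ (R K : Type) [Field R] [Field K] [CharZero K] [Algebra R K] (n e r : ℕ)
  (F : MvPolynomial (Fin (n + 1)) K) (D : Derivation R K K)
  (z a : Fin (r + 1) → Fin (n + 1) → K), 1 ≤ r → Sys (e + 1) F D →
  Indep (z 0) (fun i => D (z 0 i)) → eval (z 0) F ≠ 0 → LinearIndependent K z → a 0 = 0 →
  (∀ j, a j ∈ Submodule.span K (Set.range z)) → dA z a F = 0 → ∀ e0 m' : ℕ,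
  Module.finrank K (TL R (e + 1) F (z 0) (Submodule.span K (Set.range z))) + e0 =
    Module.finrank K (Md (e + 1) (z 0)) →
  Module.finrank K ((TL R (e + 1) F (z 0) (Submodule.span K (Set.range z))).map (resL z)) + m' =
    r * (e + 1) →
  e0 + 2 * r + (r + 1) ^ 2 ≤ 2 * m' → ∀ q ∈ Iz 2 z, dA z a q = 0

/-- RG4: vector fields on the curve -/
def T_RG4 : Prop := ∀ (K : Type) [Field K] [CharZero K] (n d r : ℕ)
  (F : MvPolynomial (Fin (n + 1)) K) (z a : Fin (r + 1) → Fin (n + 1) → K), 1 ≤ r → 1 ≤ d →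
  F.IsHomogeneous d → LinearIndependent K z → a ≠ 0 → a 0 = 0 →
  (∀ j, a j ∈ Submodule.span K (Set.range z)) → (∀ q ∈ Iz 2 z, dA z a q = 0) → dA z a F = 0 →
  eval (z 0) F ≠ 0 → TwoR d F z

/-- RIG: rigidity (6f) -/
def T_RIG : Prop := ∀ (R K : Type) [Field R] [Field K] [CharZero K] [Algebra R K] (n e r : ℕ)
  (F : MvPolynomial (Fin (n + 1)) K) (D : Derivation R K K)
  (z : Fin (r + 1) → Fin (n + 1) → K), 1 ≤ r → Sys (e + 1) F D →
  Indep (z 0) (fun i => D (z 0 i)) → eval (z 0) F ≠ 0 → LinearIndependent K z → ∀ e0 m' : ℕ,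
  Module.finrank K (TL R (e + 1) F (z 0) (Submodule.span K (Set.range z))) + e0 =
    Module.finrank K (Md (e + 1) (z 0)) →
  Module.finrank K ((TL R (e + 1) F (z 0) (Submodule.span K (Set.range z))).map (resL z)) + m' =
    r * (e + 1) →
  e0 + 2 * r + (r + 1) ^ 2 ≤ 2 * m' → r * (r + 1) + m' ≤ r * (e + 1) ∨ TwoR (e + 1) F z

/-- GNU: the numbers in (6g), from (6e). `h`, `χ`, `D1`, `D2`, `Da` are the heights, `q = ⌈m'/r⌉`,
`a' = ⌊m'/r⌋`. -/
def T_GNU : Prop := ∀ (ε : ℚ) (R C2 : ℕ), 0 < ε → ∃ n0 : ℕ, ∀ n d r m' e0 : ℕ, n0 ≤ n →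
  (1 + ε) * n ≤ d → 1 ≤ r → r ≤ R → e0 + 2 = (r + 1) * (n - r + 1) → m' ≤ r * d → m' ≤ e0 →
  ∀ (h χ D1 D2 : ℤ) (DD : ℕ → ℤ), 0 < h → χ < h → 0 ≤ D1 → D1 ≤ D2 → n * D2 ≤ C2 * h →
  (∀ a, 0 ≤ DD a ∧ DD a ≤ DD (a + 1)) →
  (∀ b : ℕ, (b * (2 * r * b + 1) : ℤ) * D2 ≤ (2 * r + 1) * DD (2 * b)) →
  ((d : ℤ) - r - 1 - ((m' + r - 1) / r : ℕ)) * h + DD (m' / r) ≤
    χ + n * D1 + ((e0 : ℤ) - m') * D2 →
  e0 + 2 * r + (r + 1) ^ 2 ≤ 2 * m' ∧ (r * (r + 1) + m' ≤ r * d → D2 ≤ χ)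

/-- G6G: (6g) -/
def T_G6G : Prop := ∀ (ε : ℚ) (R C2 : ℕ), 0 < ε → ∃ n0 : ℕ, ∀ n e r : ℕ, n0 ≤ n →
  (1 + ε) * n ≤ e + 1 → 1 ≤ r → r ≤ R → ∀ (k : Type) [Field k] [IsAlgClosed k] [CharZero k]
  (c : Mon (n + 1) (e + 1) → k), AlgebraicIndependent ℚ c → ∀ (K : Type) [Field K] [Algebra k K]
  [Algebra.EssFiniteType k K], Algebra.trdeg k K = 1 → ∀ (D : Derivation k K K), D ≠ 0 →
  ∀ (z : Fin (r + 1) → Fin (n + 1) → K), LinearIndependent K z → 0 < hgt k (z 0) →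
  eval (z 0) (up K (frm c)) ≠ 0 → ∀ S : Finset (DV k K),
  (∀ v, v ∉ S → v.ord (eval (z 0) (up K (frm c))) = (e + 1) * mo v (z 0)) →
  canDeg D + S.card < hgt k (z 0) → n * Da k 2 z ≤ C2 * hgt k (z 0) →
  Da k 2 z ≤ canDeg D + S.card ∨ TwoR (e + 1) (up K (frm c)) z

end Pool.Agent.H30.EE
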