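import Pool.Agent.H30.EE.TargetsP
import Pool.Agent.H30.EE.TargetsG
import Pool.Agent.H17.VG.TargetsF

/-!
# MP_70ba79_ag: targets of the board `ee_modules`, part F (sections 7, 8, 9: final statements)
-/

set_option autoImplicit false

namespace Pool.Agent.H30.EE

open MvPolynomial SC Pool.Agent.H27.LV Pool.Agent.H17.VG

/-- FNU: the numbers of the two phases in section 8 -/
def T_FNU : Prop := ∀ (ε : ℚ) (R : ℕ), 0 < ε → ε ≤ 1 → R * ε ≤ 1 → 1 < (R + 1) * ε →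
  ∃ ε1 c1 : ℚ, 0 < ε1 ∧ ε1 < 1 ∧ 0 < c1 ∧ ∃ n1 : ℕ, ∀ n e : ℕ, n1 ≤ n → (1 + ε) * n ≤ e + 1 →
  ∃ a : ℕ, 2 * R + 2 ≤ a ∧ 2 * a ≤ e + 2 ∧ c1 * n ≤ a ∧
  (∀ h χ : ℚ, 0 < h → χ < h →
    a * h < ε1 * h * (a * (R + 1) - (R + 1) * (R - 2) / 2 - 1) ∧
    (2 * a - 2) * h * (h - ε1 * h) < ε1 * h * (((e : ℚ) - n) * h - χ - ε1 * h * (n - 1))) ∧
  ∀ r : ℕ, 1 ≤ r → r ≤ R → ∀ h χ l μ : ℚ, 0 < h → χ < h → l ≤ ε / 8 * h →
    μ = (1 + ε / 8) * h / (r + 1) → 0 < μ ∧ μ < h ∧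
    a * h < μ * (a * (r + 1) - (r + 1) * (r - 2) / 2 - 1) ∧
    (2 * a - 2) * h * (h - μ) <
      μ * (((e : ℚ) - r) * h - χ - n * l - μ * ((r + 1) * (n - r + 1) - 2))

/-- PHS: one phase: (2e), (2f), (5) and Proposition 3 -/
def T_PHS : Prop := ∀ (k : Type) [Field k] [IsAlgClosed k] [CharZero k] (n e : ℕ)
  (c : Mon (n + 1) (e + 1) → k), 2 ≤ e → AlgebraicIndependent ℚ c → ∀ (K : Type) [Field K]
  [Algebra k K] [Algebra.EssFiniteType k K], Algebra.trdeg k K = 1 →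
  ∀ (D : Derivation k K K), D ≠ 0 → ∀ (x : Fin (n + 1) → K), 0 < hgt k x →
  eval x (up K (frm c)) ≠ 0 → ∀ S : Finset (DV k K),
  (∀ v, v ∉ S → v.ord (eval x (up K (frm c))) = (e + 1) * mo v x) →
  ∀ (r a B : ℕ) (L : Submodule K (Fin (n + 1) → K)) (μ : ℚ), r ≤ n → x ∈ L →
  Module.finrank K L = r + 1 → 0 < μ → μ < hgt k x → 1 ≤ B → 2 * B + 2 ≤ a → 2 * a ≤ e + 2 →
  (a : ℚ) * hgt k x < μ * (a * (B + 1) - (B + 1) * (B - 2) / 2 - 1) →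
  (2 * a - 2 : ℚ) * hgt k x * (hgt k x - μ) < μ * (((e : ℚ) - r) * hgt k x -
    ((canDeg D : ℤ) + S.card) + n * dg k L - μ * ((r + 1) * (n - r + 1) - 2)) →
  ∃ l0 l1 : Fin (n + 1) → k, el l0 x ≠ 0 ∧ hgt k ![el l0 x, el l1 x] = hgt k x ∧
    ∀ l : Fin (n + 1) → k, ∃ (b : ℕ) (g : MvPolynomial (Fin 3) K), b ≤ B ∧ g ≠ 0 ∧
      g.IsHomogeneous b ∧ a * hF (n := 2) k b g ≤ 8 * hgt k x ∧
      eval ![el l0 x, el l1 x, el l x] g = 0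

/-- ALE: a rational normal curve of small height through `x` -/
def T_ALE : Prop := ∀ (ε : ℚ) (R : ℕ), 0 < ε → ε ≤ 1 → R * ε ≤ 1 → 1 < (R + 1) * ε →
  ∃ C2 n0 : ℕ, ∀ n e : ℕ, n0 ≤ n → (1 + ε) * n ≤ e + 1 →
  ∀ (k : Type) [Field k] [IsAlgClosed k] [CharZero k] (c : Mon (n + 1) (e + 1) → k),
  AlgebraicIndependent ℚ c → ∀ (K : Type) [Field K] [Algebra k K] [Algebra.EssFiniteType k K],
  Algebra.trdeg k K = 1 → ∀ (D : Derivation k K K), D ≠ 0 → ∀ (x : Fin (n + 1) → K),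
  0 < hgt k x → eval x (up K (frm c)) ≠ 0 → ∀ S : Finset (DV k K),
  (∀ v, v ∉ S → v.ord (eval x (up K (frm c))) = (e + 1) * mo v x) →
  canDeg D + S.card < hgt k x →
  ∃ (r : ℕ) (z : Fin (r + 1) → Fin (n + 1) → K), 1 ≤ r ∧ r ≤ R ∧ LinearIndependent K z ∧
    z 0 = x ∧ n * Da k 2 z ≤ C2 * hgt k x

/-- QQQ: Proposition 7 -/
def T_QQQ : Prop := ∀ n d r : ℕ, 1 ≤ r → 1 ≤ d → ∃ C : ℕ, ∀ (k : Type) [Field k]
  [IsAlgClosed k] [CharZero k] (F : MvPolynomial (Fin (n + 1)) k), F.IsHomogeneous d →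
  ∀ (K : Type) [Field K] [Algebra k K] [Algebra.EssFiniteType k K], Algebra.trdeg k K = 1 →
  ∀ (D : Derivation k K K), D ≠ 0 → ∀ (z : Fin (r + 1) → Fin (n + 1) → K),
  LinearIndependent K z → 0 < hgt k (z 0) → eval (z 0) (up K F) ≠ 0 → ¬ TwoR d (up K F) z →
  ∀ S : Finset (DV k K), (∀ v, v ∉ S → v.ord (eval (z 0) (up K F)) = d * mo v (z 0)) →
  0 ≤ canDeg D + S.card → ∀ β : ℕ, Da k 2 z ≤ β → hgt k (z 0) ≤ C * (canDeg D + S.card + β)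

/-- MNE: the main theorem, in homogeneous coordinates -/
def T_MNE : Prop := ∀ (ε : ℚ) (R : ℕ), 0 < ε → ε ≤ 1 → R * ε ≤ 1 → 1 < (R + 1) * ε →
  ∃ n0 : ℕ, ∀ n e : ℕ, n0 ≤ n → (1 + ε) * n ≤ e + 1 → ∃ C : ℕ,
  ∀ (k : Type) [Field k] [IsAlgClosed k] [CharZero k] (c : Mon (n + 1) (e + 1) → k),
  AlgebraicIndependent ℚ c → ∀ (K : Type) [Field K] [Algebra k K] [Algebra.EssFiniteType k K],
  Algebra.trdeg k K = 1 → ∀ (D : Derivation k K K), D ≠ 0 → ∀ (x : Fin (n + 1) → K),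
  0 < hgt k x → eval x (up K (frm c)) ≠ 0 →
  (∀ (r : ℕ) (z : Fin (r + 1) → Fin (n + 1) → K), 1 ≤ r → r ≤ R → LinearIndependent K z →
    z 0 = x → ¬ TwoR (e + 1) (up K (frm c)) z) → ∀ S : Finset (DV k K),
  (∀ v, v ∉ S → v.ord (eval x (up K (frm c))) = (e + 1) * mo v x) →
  hgt k x ≤ C * (canDeg D + S.card)

/-- The point `y` of `X` lies on a rational normal curve of degree at most `R` which meets the
hypersurface in at most two points. -/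
def excRat {k : Type} [Field k] {n d : ℕ} (R : ℕ) (c : Mon (n + 1) d → k) (K : Type) [Field K]
    [Algebra k K] (y : Mon (n + 1) d → K) : Prop :=
  ∃ (r : ℕ) (z : Fin (r + 1) → Fin (n + 1) → K) (p : Fin (n + 1)), 1 ≤ r ∧ r ≤ R ∧ z 0 p = 1 ∧
    LinearIndependent K z ∧ TwoR d (up K (frm c)) z ∧ eval (z 0) (up K (frm c)) ≠ 0 ∧
    ∀ M : Mon (n + 1) d, y M = (∏ i, z 0 i ^ M.1 i) / eval (z 0) (up K (frm c))

/-- FIE: Q1 for the complement of a very general hypersurface of degree `≥ (1 + ε) n` -/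
def T_FIE : Prop := ∀ (ε : ℚ) (R : ℕ), 0 < ε → ε ≤ 1 → R * ε ≤ 1 → 1 < (R + 1) * ε →
  ∃ n0 : ℕ, ∀ n e : ℕ, n0 ≤ n → (1 + ε) * n ≤ e + 1 → ∃ C : ℕ,
  ∀ (k : Type) [Field k] [IsAlgClosed k] [CharZero k] (c : Mon (n + 1) (e + 1) → k),
  AlgebraicIndependent ℚ c →
  DegreeBoundOff k (eqs c) (fun K _ _ y => excRat R c K y) (fun χ => C * χ) ∧
  ∃ (Φ : MvPolynomial (Fin (n + 1)) k) (m : ℕ), Φ ≠ 0 ∧ Φ.IsHomogeneous m ∧
    ∀ (K : Type) [Field K] [Algebra k K] (r : ℕ) (z : Fin (r + 1) → Fin (n + 1) → K)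
      (p : Fin (n + 1)), 1 ≤ r → r ≤ R → z 0 p = 1 → LinearIndependent K z →
      TwoR (e + 1) (up K (frm c)) z → eval (z 0) (up K Φ) = 0

end Pool.Agent.H30.EE
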