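import Pool.Agent.H30.EE.TargetsF
import Pool.Agent.H17.VG.PSI
import Pool.Agent.H66.VG.VE

/-!
# MP_70ba79_ag: complements of very general hypersurfaces of degree `d ≥ (1 + ε) n`, final form
-/

set_option autoImplicit false

namespace Pool.Agent.H30.EE

open MvPolynomial SC Pool.Agent.H27.LV Pool.Agent.H17.VG

/-- The point `y` of `X`, the complement of the hypersurface `frm c = 0`, lies on a rational normal
curve of degree `r ≤ 1 / ε` over the field `K` which meets the hypersurface in at most two points: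
the curve is `z 0 + s z 1 + ... + s ^ r z r` with independent `z j`, its point `z 0` is `y`, and
`frm c` has on it the values `F (z 0) (1 + α s) ^ a (1 + β s) ^ b`, `a + b = r d` (`TwoR`). -/
def excCurve {k : Type} [Field k] {n d : ℕ} (ε : ℚ) (c : Mon (n + 1) d → k) (K : Type) [Field K]
    [Algebra k K] (y : Mon (n + 1) d → K) : Prop :=
  ∃ (r : ℕ) (z : Fin (r + 1) → Fin (n + 1) → K) (p : Fin (n + 1)), 1 ≤ r ∧ r * ε ≤ 1 ∧
    z 0 p = 1 ∧ LinearIndependent K z ∧ TwoR d (up K (frm c)) z ∧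
    eval (z 0) (up K (frm c)) ≠ 0 ∧
    ∀ M : Mon (n + 1) d, y M = (∏ i, z 0 i ^ M.1 i) / eval (z 0) (up K (frm c))

lemma excCurve_iff {k : Type} [Field k] {n d : ℕ} {ε : ℚ} {R : ℕ} (hε : 0 < ε) (h1 : R * ε ≤ 1)
    (h2 : 1 < (R + 1) * ε) (c : Mon (n + 1) d → k) (K : Type) [Field K] [Algebra k K]
    (y : Mon (n + 1) d → K) : excCurve ε c K y ↔ excRat R c K y := by
  have key : ∀ r : ℕ, (r : ℚ) * ε ≤ 1 ↔ r ≤ R := by
    intro r
    constructor
    · intro h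
      by_contra hcon
      have h3 : R + 1 ≤ r := by omega
      have h4 : ((R : ℚ) + 1) * ε ≤ r * ε := by
        refine mul_le_mul_of_nonneg_right ?_ hε.le
        exact_mod_cast h3
      linarith
    · intro h
      have h4 : (r : ℚ) * ε ≤ R * ε := by
        refine mul_le_mul_of_nonneg_right ?_ hε.le
        exact_mod_cast h
      linarith
  unfold excCurve excRat
  constructor
  · rintro ⟨r, z, p, hr, hre, h⟩
    exact ⟨r, z, p, hr, (key r).1 hre, h⟩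
  · rintro ⟨r, z, p, hr, hre, h⟩
    exact ⟨r, z, p, hr, (key r).2 hre, h⟩

theorem fie_res (hFIE : T_FIE) : ∀ ε : ℚ, 0 < ε → ε ≤ 1 →
    ∃ n0 : ℕ, ∀ n e : ℕ, n0 ≤ n → (1 + ε) * n ≤ e + 1 → ∃ C : ℕ,
    ∀ (k : Type) [Field k] [IsAlgClosed k] [CharZero k] (c : Mon (n + 1) (e + 1) → k),
    AlgebraicIndependent ℚ c →
    DegreeBoundOff k (eqs c) (fun K _ _ y => excCurve ε c K y) (fun χ => C * χ) ∧
    (∃ Ψ : MvPolynomial (Mon (n + 1) (e + 1)) k,
      (∃ y : Mon (n + 1) (e + 1) → k, (∀ g ∈ eqs c, aeval y g = 0) ∧ aeval y Ψ ≠ 0) ∧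
      ∀ (K : Type) [Field K] [Algebra k K] (y : Mon (n + 1) (e + 1) → K),
        excCurve ε c K y → aeval y Ψ = 0) ∧
    ∀ (K : Type) [Field K] [Algebra k K] (y : Mon (n + 1) (e + 1) → K),
      (∀ g ∈ eqs c, aeval y g = 0) ↔ ∃ (x : Fin (n + 1) → K) (p : Fin (n + 1)), x p = 1 ∧
        eval x (up K (frm c)) ≠ 0 ∧
        ∀ M : Mon (n + 1) (e + 1), y M = (∏ i, x i ^ M.1 i) / eval x (up K (frm c)) := by
  intro ε hε hε1
  obtain ⟨R, hR⟩ : ∃ R : ℕ, R = ⌊1 / ε⌋₊ := ⟨_, rfl⟩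
  have hR1 : R * ε ≤ 1 := by
    have h := Nat.floor_le (show (0 : ℚ) ≤ 1 / ε by positivity)
    rw [← hR, le_div_iff₀ hε] at h
    exact h
  have hR2 : 1 < (R + 1) * ε := by
    have h := Nat.lt_floor_add_one (1 / ε)
    rw [← hR, div_lt_iff₀ hε] at h
    exact h
  obtain ⟨n0, h0⟩ := hFIE ε R hε hε1 hR1 hR2
  refine ⟨n0, fun n e hn hne => ?_⟩
  obtain ⟨C, hC⟩ := h0 n e hn hne
  refine ⟨C, ?_⟩
  intro k _ _ _ c hc
  obtain ⟨h1, Φ, m, hΦ, hm, h2⟩ := hC k c hc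
  have hexc : (fun (K : Type) [Field K] [Algebra k K] (y : Mon (n + 1) (e + 1) → K) =>
      excCurve ε c K y) = (fun (K : Type) [Field K] [Algebra k K]
        (y : Mon (n + 1) (e + 1) → K) => excRat R c K y) := by
    funext K _ _ y
    exact propext (excCurve_iff hε hR1 hR2 c K y)
  refine ⟨?_, ?_, ?_⟩
  · have h3 : DegreeBoundOff k (eqs c) (fun K _ _ y => excRat R c K y) (fun χ => C * χ) := h1
    rw [← hexc] at h3
    exact h3
  · have hF : frm c ≠ 0 := by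
      intro h0
      have h3 : c = 0 := frm_zero h0
      exact hc.ne_zero (mz n (e + 1) (by omega) 0) (congrFun h3 _)
    obtain ⟨Ψ, hΨ, h3⟩ := psi (by omega) c hF Φ hΦ hm
    refine ⟨Ψ, hΨ, ?_⟩
    intro K _ _ y hy
    obtain ⟨r, z, p, hr, hrR, hp, hz, htwo, -, hy2⟩ := (excCurve_iff hε hR1 hR2 c K y).1 hy
    exact h3 K y (z 0) hy2 (h2 K r z p hr hrR hp hz htwo)
  · intro K _ _ y
    refine ⟨fun h => Pool.Agent.H66.VG.ve k K n (e + 1) c y (by omega) h, ?_⟩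
    rintro ⟨x, p, -, hF, hz⟩
    exact pts c y x hF hz

end Pool.Agent.H30.EE
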