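import Pool.Agent.H1.EE.DGB
import Pool.Agent.H1.EE.PSA
import Pool.Agent.H11.EE.P3A
import Pool.Agent.H12.EE.PHI
import Pool.Agent.H13.EE.D2T
import Pool.Agent.H13.EE.ILC
import Pool.Agent.H13.EE.RIG
import Pool.Agent.H17.EQ.All
import Pool.Agent.H17.VG.GG
import Pool.Agent.H18.EE.CH1
import Pool.Agent.H18.EE.G6G
import Pool.Agent.H18.EE.GNU
import Pool.Agent.H18.EE.SHF
import Pool.Agent.H18.EE.TAN
import Pool.Agent.H19.EEU.DAI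
import Pool.Agent.H19.EEU.UDG
import Pool.Agent.H2.EE.CHT
import Pool.Agent.H2.EE.UGC
import Pool.Agent.H21.EE.UDC
import Pool.Agent.H21.EE.UNQ
import Pool.Agent.H27.LV.All
import Pool.Agent.H3.EE.CST
import Pool.Agent.H3.EE.DG0
import Pool.Agent.H3.EE.L41
import Pool.Agent.H3.EE.L43
import Pool.Agent.H3.EE.RG0
import Pool.Agent.H3.EE.RG2
import Pool.Agent.H30.EE.RES
import Pool.Agent.H33.EE.FIE
import Pool.Agent.H33.EE.ISU
import Pool.Agent.H33.EE.UJT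
import Pool.Agent.H34.EE.GPT
import Pool.Agent.H35.EE.FNU
import Pool.Agent.H36.EE.CHA
import Pool.Agent.H36.EE.ICD
import Pool.Agent.H36.EE.ICE
import Pool.Agent.H36.EE.RG1
import Pool.Agent.H37.EE.ALE
import Pool.Agent.H37.EE.MNE
import Pool.Agent.H42.EE.JCO
import Pool.Agent.H42.EE.QSL
import Pool.Agent.H42.EE.TRI
import Pool.Agent.H42.EE.WGT
import Pool.Agent.H47.EE.LPA
import Pool.Agent.H48.EE.RG4
import Pool.Agent.H48.EE.RMD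
import Pool.Agent.H49.EE.IFR
import Pool.Agent.H49.EE.ITL
import Pool.Agent.H49.EE.QDM
import Pool.Agent.H49.EE.REP
import Pool.Agent.H51.VG.KD
import Pool.Agent.H54.BO.LDJ
import Pool.Agent.H55.EE.CHN
import Pool.Agent.H56.EE.CBM
import Pool.Agent.H56.EE.VLL
import Pool.Agent.H59.BO.HTR
import Pool.Agent.H6.EE.GEN
import Pool.Agent.H60.EE.ILO
import Pool.Agent.H60.EE.VOL
import Pool.Agent.H61.EE.COM
import Pool.Agent.H61.EE.PP3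
import Pool.Agent.H63.EE.ICC
import Pool.Agent.H63.EE.LNE
import Pool.Agent.H63.EE.P3B
import Pool.Agent.H64.VG.DX
import Pool.Agent.H64.VG.FD
import Pool.Agent.H64.VG.FE
import Pool.Agent.H66.VG.G1
import Pool.Agent.H66.VG.SO
import Pool.Agent.H68.EE.GPS
import Pool.Agent.H68.EE.HNE
import Pool.Agent.H68.EE.JML
import Pool.Agent.H68.EE.PHS
import Pool.Agent.H69.EE.DSP
import Pool.Agent.H69.EE.ILG
import Pool.Agent.H69.EE.IOM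
import Pool.Agent.H69.EE.JSB
import Pool.Agent.H69.EE.SUP
import Pool.Agent.H70.EE.UFR
import Pool.Agent.H72.BO.ULF
import Pool.Agent.H72.BO.ULT
import Pool.Agent.H79.EE.LPB
import Pool.Agent.H79.EE.PEN
import Pool.Agent.H79.EE.TRQ
import Pool.Agent.H79.EE.TRR
import Pool.Agent.H86.EE.CH2
import Pool.Agent.H86.EE.SBS
import Pool.Agent.H86.EE.UPE
import Pool.Agent.H86.VG.G2
import Pool.Agent.H88.EE.MUL
import Pool.Agent.H88.EE.QDD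
import Pool.Agent.H89.EE.RG3
import Pool.Agent.H89.EE.SEM
import Pool.Agent.H89.EE.URN
import Pool.Agent.H92.VG.BS
import Pool.Agent.H93.EE.HG
import Pool.Agent.H93.EE.MO
import Pool.Agent.H94.EE.HNB
import Pool.Agent.H95.BO.HTA
import Pool.Agent.H96.EE.GAU
import Pool.Agent.H96.EE.HIN
import Pool.Agent.H96.EE.PBA
import Pool.Agent.H97.VG.CD
import Pool.Agent.H97.VG.OP
import Pool.Agent.H99.EE.DUA
import Pool.Agent.H99.EE.KOS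
import Pool.Agent.H99.EE.L42
import Pool.Agent.H99.EE.PRI
import Pool.Agent.H99.EE.UQS

/-!
# MP_70ba79_ag: very general hypersurfaces of degree `≥ (1 + ε) n`, assembly
-/

set_option autoImplicit false

namespace Pool.Agent.H30.EE

open MvPolynomial SC Pool.Agent.H27.LV Pool.Agent.H17.VG

/-- the main theorem -/
theorem fie_all : T_FIE := by
  have hQQQ : T_QQQ := Pool.Agent.H17.EQ.t_QQQ
  have hLDJ : Pool.Agent.H17.BO.T_LDJ := Pool.Agent.H54.BO.pf_LDJ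
  have hHTA : Pool.Agent.H17.BO.T_HTA := Pool.Agent.H95.BO.pf_HTA Pool.Agent.H27.LV.pfm
  have hULT : Pool.Agent.H17.BO.T_ULT := Pool.Agent.H72.BO.pf_ULT Pool.Agent.H72.BO.pf_ULF hHTA
    Pool.Agent.H59.BO.pf_HTR
  have hSO : Pool.Agent.H17.VG.T_SO := Pool.Agent.H66.VG.so (Pool.Agent.H17.VG.G2
    Pool.Agent.H66.VG.g1)
  have hG0 : Pool.Agent.H17.VG.T_G := Pool.Agent.H17.VG.gg Pool.Agent.H64.VG.fd
    (Pool.Agent.H64.VG.dx Pool.Agent.H66.VG.g1) Pool.Agent.H51.VG.kd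
    (Pool.Agent.H92.VG.pf_BS Pool.Agent.H64.VG.fe) Pool.Agent.H97.VG.cd Pool.Agent.H97.VG.op
  have hMO : T_MO := Pool.Agent.H93.EE.pf_MO
  have hHG : T_HG := Pool.Agent.H93.EE.pf_HG hMO
  have hCBM : T_CBM := Pool.Agent.H56.EE.pf_CBM
  have hDGB : T_DGB := Pool.Agent.H1.EE.pf_DGB hMO hHG hCBM
  have hDG0 : T_DG0 := Pool.Agent.H3.EE.pf_DG0 hMO hHG hCBM hDGB
  have hPBA : T_PBA := Pool.Agent.H96.EE.pf_PBA hMO hCBM
  have hSUP : T_SUP := Pool.Agent.H69.EE.pf_SUP hMO hHG hCBM hPBA hDGB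
  have hDUA : T_DUA := Pool.Agent.H99.EE.pf_DUA hDGB hHG hCBM
  have hDSP : T_DSP := Pool.Agent.H69.EE.pf_DSP hMO hHG hCBM hDGB hDG0 hSUP hDUA
  have hQDM : T_QDM := Pool.Agent.H49.EE.pf_QDM
  have hDAI : T_DAI := Pool.Agent.H19.EEU.pf_DAI hHG hDG0 hDGB hDUA hQDM
  have hUGC : T_UGC := Pool.Agent.H2.EE.pf_UGC
  have hUPE : T_UPE := Pool.Agent.H86.EE.pf_UPE hUGC
  have hUFR : T_UFR := Pool.Agent.H70.EE.pf_UFR
  have hUDG : T_UDG := Pool.Agent.H19.EEU.pf_UDG hUPE hUFR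
  have hUJT : T_UJT := Pool.Agent.H33.EE.pf_UJT
  have hURN : T_URN := Pool.Agent.H89.EE.pf_URN hUJT
  have hUQS : T_UQS := Pool.Agent.H99.EE.pf_UQS hLDJ
  have hSHF : T_SHF := Pool.Agent.H18.EE.pf_SHF
  have hTAN : T_TAN := Pool.Agent.H18.EE.pf_TAN
  have hREP : T_REP := Pool.Agent.H49.EE.pf_REP
  have hUNQ : T_UNQ := Pool.Agent.H21.EE.pf_UNQ
  have hUDC : T_UDC := Pool.Agent.H21.EE.pf_UDC hTAN hREP hUNQ hQDM
  have hL41 : T_L41 := Pool.Agent.H3.EE.pf_L41 hLDJ hUDG hUJT hURN hUQS hSHF hUDC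
  have hTRR : T_TRR := Pool.Agent.H79.EE.pf_TRR hHG
  have hTRQ : T_TRQ := Pool.Agent.H79.EE.pf_TRQ hHG
  have hL42 : T_L42 := Pool.Agent.H99.EE.pf_L42 hHTA hULT hHG hDG0 hDSP hDAI hQDM hL41 hTRR hTRQ
  have hCHN : T_CHN := Pool.Agent.H55.EE.pf_CHN
  have hPHI : T_PHI := Pool.Agent.H12.EE.pf_PHI hMO hHG
  have hCHT : T_CHT := Pool.Agent.H2.EE.pf_CHT hMO hHG hCBM hDGB
  have hD2T : T_D2T := Pool.Agent.H13.EE.pf_D2T hMO hHG hCBM hQDM hDAI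
  have hL43 : T_L43 := Pool.Agent.H3.EE.pf_L43 hHG hL42 hCHN hPHI hCHT hD2T
  have hFNU : T_FNU := Pool.Agent.H35.EE.FNU.pf_FNU
  have hHNE : T_HNE := Pool.Agent.H68.EE.pf_HNE
  have hHNB : T_HNB := Pool.Agent.H94.EE.pf_HNB
  have hPSA : T_PSA := Pool.Agent.H1.EE.pf_PSA hMO hCBM
  have hGAU : T_GAU := Pool.Agent.H96.EE.pf_GAU hMO hHG hCBM hPBA hPSA hDGB
  have hMUL : T_MUL := Pool.Agent.H88.EE.pf_MUL hHG hGAU
  have hQSL : T_QSL := Pool.Agent.H42.EE.pf_QSL hMUL hDSP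
  have hQDD : T_QDD := Pool.Agent.H88.EE.pf_QDD hMO hHG hCBM hPBA hDGB
  have hICE : T_ICE := Pool.Agent.H36.EE.pf_ICE hMO hHG hCBM hPBA hDGB
  have hICD : T_ICD := Pool.Agent.H36.EE.pf_ICD
  have hICC : T_ICC := Pool.Agent.H63.EE.pf_ICC hICD
  have hITL : T_ITL := Pool.Agent.H49.EE.pf_ITL
  have hISU : T_ISU := Pool.Agent.H33.EE.pf_ISU
  have hIFR : T_IFR := Pool.Agent.H49.EE.pf_IFR hITL hISU
  have hIOM : T_IOM := Pool.Agent.H69.EE.pf_IOM hITL hISU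
  have hILO : T_ILO := Pool.Agent.H60.EE.pf_ILO
  have hILC : T_ILC := Pool.Agent.H13.EE.pf_ILC hMO
  have hILG : T_ILG := Pool.Agent.H69.EE.pf_ILG hMO
  have hHIN : T_HIN := Pool.Agent.H96.EE.pf_HIN hMO hHG hDSP hQDD hICE hICC hITL hIFR hIOM hILO hILC
    hILG
  have hJCO : T_JCO := Pool.Agent.H42.EE.pf_JCO hDSP hHNB
  have hJML : T_JML := Pool.Agent.H68.EE.pf_JML hMUL hDSP hHNB
  have hP3A : T_P3A := Pool.Agent.H11.EE.pf_P3A hJML hJCO hDSP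
  have hP3B : T_P3B := Pool.Agent.H63.EE.pf_P3B hMO hHG
  have hCST : T_CST := Pool.Agent.H3.EE.pf_CST hHG hCBM hDGB
  have hSBS : T_SBS := Pool.Agent.H86.EE.pf_SBS hCST
  have hJSB : T_JSB := Pool.Agent.H69.EE.pf_JSB hSBS hDSP hHNB
  have hKOS : T_KOS := Pool.Agent.H99.EE.pf_KOS
  have hLNE : T_LNE := Pool.Agent.H63.EE.pf_LNE hKOS
  have hPEN : T_PEN := Pool.Agent.H79.EE.pf_PEN
  have hSEM : T_SEM := Pool.Agent.H89.EE.pf_SEM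
  have hPRI : T_PRI := Pool.Agent.H99.EE.pf_PRI
  have hCOM : T_COM := Pool.Agent.H61.EE.pf_COM hHG hDSP hJML hJSB hLNE hPEN hSEM hPRI
  have hLPA : T_LPA := Pool.Agent.H47.EE.pf_LPA hGAU hMUL hDSP hHNB
  have hLPB : T_LPB := Pool.Agent.H79.EE.pf_LPB hGAU hDSP hHNB
  have hPP3 : T_PP3 := Pool.Agent.H61.EE.pf_PP3 hHG hDSP hHNE hJCO hP3A hP3B hCOM hLPA hLPB
  have hPHS : T_PHS := Pool.Agent.H68.EE.pf_PHS hHG hDSP hHNE hHNB hQSL hHIN hIFR hPP3 hG0 hSO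
  have hALE : T_ALE := Pool.Agent.H37.EE.pf_ALE hHG hDG0 hL43 hFNU hPHS
  have hTRI : T_TRI := Pool.Agent.H42.EE.pf_TRI hMO hCBM
  have hWGT : T_WGT := Pool.Agent.H42.EE.pf_WGT
  have hVLL : T_VLL := Pool.Agent.H56.EE.pf_VLL hMO hQDM hTRI hWGT
  have hVOL : T_VOL := Pool.Agent.H60.EE.pf_VOL hMO hHG hDAI hQDM hVLL
  have hRMD : T_RMD := Pool.Agent.H48.EE.pf_RMD hQDM
  have hGEN : T_GEN := Pool.Agent.H6.EE.pf_GEN hQDM
  have hCH1 : T_CH1 := Pool.Agent.H18.EE.pf_CH1 hMUL hDSP hDAI hGEN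
  have hGPS : T_GPS := Pool.Agent.H68.EE.pf_GPS
  have hGPT : T_GPT := Pool.Agent.H34.EE.pf_GPT hGPS
  have hCH2 : T_CH2 := Pool.Agent.H86.EE.pf_CH2 hHG hMUL hDSP hDAI hQDM hGPT hRMD
  have hCHA : T_CHA := Pool.Agent.H36.EE.pf_CHA hRMD hCH1 hCH2
  have hRG0 : T_RG0 := Pool.Agent.H3.EE.pf_RG0
  have hRG1 : T_RG1 := Pool.Agent.H36.EE.pf_RG1 hRG0
  have hRG2 : T_RG2 := Pool.Agent.H3.EE.pf_RG2 hRG0
  have hRG3 : T_RG3 := Pool.Agent.H89.EE.pf_RG3 hRG0 hRG2 hRMD hQDM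
  have hRG4 : T_RG4 := Pool.Agent.H48.EE.pf_RG4 hRG0
  have hRIG : T_RIG := Pool.Agent.H13.EE.pf_RIG hRG1 hRG3 hRG4
  have hGNU : T_GNU := Pool.Agent.H18.EE.pf_GNU
  have hG6G : T_G6G := Pool.Agent.H18.EE.pf_G6G hG0 hSO hHG hDAI hVOL hCHA hRIG hGNU hHIN hIFR hRMD
  have hMNE : T_MNE := Pool.Agent.H37.EE.pf_MNE hHG hALE hG6G hQQQ
  have hFIE : T_FIE := Pool.Agent.H33.EE.pf_FIE hHG hMNE
  exact hFIE

end Pool.Agent.H30.EE
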