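import Pool.Agent.H17.BO.TargetsE

/-!
# MP_70ba79_ag: complements of very general hypersurfaces of degree `d ≥ (1 + ε) n`

Common definitions of the modules of the board `ee_modules`. Notation as in `Pool/Agent/H17/VG`:
`K` is a function field of one variable over `k`, `F` a form of degree `d` in `n + 1` variables,
`x` a point. The proof is in `/team-store/H30_E_proof.md`; the sections of this text are quoted.
-/

set_option autoImplicit false

namespace Pool.Agent.H30.EE

open MvPolynomial SC Pool.Agent.H27.LV Pool.Agent.H17.VG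

section Height

variable {k K : Type} [Field k] [Field K] [Algebra k K]

/-- smallest order at `v` of a coordinate of `P` (`0` if `P = 0`) -/
noncomputable def mo {κ : Type} (v : DV k K) (P : κ → K) : ℤ :=
  sInf {a : ℤ | ∃ i, P i ≠ 0 ∧ v.ord (P i) = a}

/-- height of the point of projective space with the coordinates `P` -/
noncomputable def hgt (k : Type) {K : Type} [Field k] [Field K] [Algebra k K] {κ : Type}
    (P : κ → K) : ℤ := -∑ᶠ v : DV k K, mo v P

/-- all determinants of the columns `J` of the matrix with the rows `u` -/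
noncomputable def mnr {m : ℕ} {ι : Type} (u : Fin m → ι → K) : (Fin m → ι) → K :=
  fun J => (Matrix.of fun a b : Fin m => u a (J b)).det

/-- degree of a subspace (`≤ 0`) -/
noncomputable def dg (k : Type) {K : Type} [Field k] [Field K] [Algebra k K] {ι : Type} [Finite ι]
    (U : Submodule K (ι → K)) : ℤ :=
  -hgt k (mnr fun a => ((Module.finBasis K U a : U) : ι → K))

/-- a family which is primitive at `v` -/
structure Prm {m : ℕ} {ι : Type} (v : DV k K) (u : Fin m → ι → K) : Prop where
  int : ∀ a i, ge v 0 (u a i)
  ne : mnr u ≠ 0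
  ord : mo v (mnr u) = 0

end Height

section Forms

variable {k K : Type} [Field k] [Field K] [Algebra k K] {n : ℕ}

/-- the form with given coefficients, as a linear map -/
noncomputable def frL (K : Type) [Field K] (n d : ℕ) :
    (Mon (n + 1) d → K) →ₗ[K] MvPolynomial (Fin (n + 1)) K where
  toFun := frm
  map_add' := by
    intro a b
    unfold frm
    rw [← Finset.sum_add_distrib]
    refine Finset.sum_congr rfl fun M _ => ?_
    rw [Pi.add_apply, map_add, add_mul]
  map_smul' := by
    intro c a
    unfold frm
    rw [RingHom.id_apply, Finset.smul_sum]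
    refine Finset.sum_congr rfl fun M _ => ?_
    rw [Pi.smul_apply, smul_eq_mul, map_mul, smul_eq_C_mul, mul_assoc]

/-- degree of a space of forms of degree `d` -/
noncomputable def dS (k : Type) {K : Type} [Field k] [Field K] [Algebra k K] (n d : ℕ)
    (W : Submodule K (MvPolynomial (Fin (n + 1)) K)) : ℤ := dg k (W.comap (frL K n d))

/-- height of a form -/
noncomputable def hF (k : Type) {K : Type} [Field k] [Field K] [Algebra k K] {n : ℕ} (d : ℕ)
    (G : MvPolynomial (Fin (n + 1)) K) : ℤ := hgt k fun M : Mon (n + 1) d => coeff (fs M.1) G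

/-- forms of degree `d` -/
noncomputable abbrev Sd (K : Type) [Field K] (n d : ℕ) :
    Submodule K (MvPolynomial (Fin (n + 1)) K) := homogeneousSubmodule (Fin (n + 1)) K d

/-- forms of degree `d` which vanish at `x` -/
noncomputable def Md (d : ℕ) (x : Fin (n + 1) → K) : Submodule K (MvPolynomial (Fin (n + 1)) K) :=
  Sd K n d ⊓ LinearMap.ker (aeval x : MvPolynomial (Fin (n + 1)) K →ₐ[K] K).toLinearMap

/-- products of the elements of `W` with `G` -/
noncomputable def mulW (G : MvPolynomial (Fin (n + 1)) K)
    (W : Submodule K (MvPolynomial (Fin (n + 1)) K)) :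
    Submodule K (MvPolynomial (Fin (n + 1)) K) := W.map (LinearMap.mulLeft K G)

/-- substitution `T_i ↦ lin (l i)` -/
noncomputable def sbs {m : ℕ} (l : Fin (m + 1) → Fin (n + 1) → K) :
    MvPolynomial (Fin (m + 1)) K →ₐ[K] MvPolynomial (Fin (n + 1)) K :=
  aeval fun i => lin (l i)

/-- value of the linear form with constant coefficients `l` at `x` -/
noncomputable def el (l : Fin (n + 1) → k) (x : Fin (n + 1) → K) : K :=
  ∑ i, algebraMap k K (l i) * x i

/-- a linear form with constant coefficients, over `K` -/
noncomputable def ul (K : Type) [Field K] [Algebra k K] (l : Fin (n + 1) → k) :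
    Fin (n + 1) → K := fun i => algebraMap k K (l i)

end Forms

section HN

variable {K V : Type} [Field K] [AddCommGroup V] [Module K V]

/-- the function maximised by a piece of the Harder-Narasimhan filtration -/
noncomputable def fmu (φ : Submodule K V → ℤ) (μ : ℚ) (J : Submodule K V) : ℚ :=
  φ J + μ * Module.finrank K J

/-- `J` is the largest subspace of `M` which maximises `fmu φ μ` -/
structure IsJ (φ : Submodule K V → ℤ) (μ : ℚ) (M J : Submodule K V) : Prop where
  le : J ≤ M
  mx : ∀ J' ≤ M, fmu φ μ J' ≤ fmu φ μ J
  top : ∀ J' ≤ M, fmu φ μ J' = fmu φ μ J → J' ≤ J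

end HN

section Curves

variable {k K : Type} [Field k] [Field K] [Algebra k K] {n r : ℕ}

/-- restriction of a form to the curve `∑ s ^ j z_j` -/
noncomputable def resC (z : Fin (r + 1) → Fin (n + 1) → K) (G : MvPolynomial (Fin (n + 1)) K) :
    Polynomial K := aeval (fun i => ∑ j, Polynomial.C (z j i) * Polynomial.X ^ (j : ℕ)) G

/-- coefficients of the restrictions of the monomials of degree `a` -/
noncomputable def RM (a : ℕ) (z : Fin (r + 1) → Fin (n + 1) → K) :
    Fin (r * a + 1) → Mon (n + 1) a → K := fun i M => (resC z (mono K M.1)).coeff i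

/-- the height `D_a` of the curve: minus the degree of the space of forms of degree `a` which
vanish on the curve -/
noncomputable def Da (k : Type) {K : Type} [Field k] [Field K] [Algebra k K] {n r : ℕ} (a : ℕ)
    (z : Fin (r + 1) → Fin (n + 1) → K) : ℤ := hgt k (mnr (RM a z))

/-- forms of degree `a` which vanish on the curve -/
noncomputable def Iz (a : ℕ) (z : Fin (r + 1) → Fin (n + 1) → K) :
    Submodule K (MvPolynomial (Fin (n + 1)) K) :=
  Sd K n a ⊓ LinearMap.ker (aeval (R := K) (fun i => ∑ j, Polynomial.C (z j i) *
    (Polynomial.X : Polynomial K) ^ (j : ℕ))).toLinearMap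

/-- The rational normal curve `∑ s ^ j z_j` meets `F = 0` in at most two points:
`F (∑ s ^ j z_j) = F (z_0) (1 + α s) ^ a (1 + β s) ^ b`, `a + b = r d` -/
def TwoR (d : ℕ) (F : MvPolynomial (Fin (n + 1)) K) (z : Fin (r + 1) → Fin (n + 1) → K) : Prop :=
  ∃ (α β : AlgebraicClosure K) (a b : ℕ), a + b = r * d ∧
    (resC z F).map (algebraMap K (AlgebraicClosure K)) =
      Polynomial.C (algebraMap K (AlgebraicClosure K) (eval (z 0) F)) *
        (1 + Polynomial.C α * Polynomial.X) ^ a * (1 + Polynomial.C β * Polynomial.X) ^ b

end Curves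

section Flags

variable {R K : Type} [Field R] [Field K] [Algebra R K] {n : ℕ}

/-- symbols (vanishing at `x`) of the operators which fix `x` (up to a factor) and `L` -/
noncomputable def TL (R : Type) [Field R] [Algebra R K] (d : ℕ)
    (F : MvPolynomial (Fin (n + 1)) K) (x : Fin (n + 1) → K)
    (L : Submodule K (Fin (n + 1) → K)) : Submodule K (MvPolynomial (Fin (n + 1)) K) :=
  Submodule.span K {G | G ∈ Md d x ∧ ∃ τ : Op R K n, opF τ F = G ∧
    (∃ c : K, opV τ x = c • x) ∧ ∀ w ∈ L, opV τ w ∈ L}

end Flags

end Pool.Agent.H30.EE
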