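import Pool.Agent.H30.EE.Defs

/-!
# MP_70ba79_ag: targets of the board `ee_modules`, part H (degrees of subspaces, section 1)
-/

set_option autoImplicit false

namespace Pool.Agent.H30.EE

open MvPolynomial SC Pool.Agent.H27.LV Pool.Agent.H17.VG

/-- MO: the smallest order -/
def T_MO : Prop := ∀ (k K : Type) [Field k] [Field K] [Algebra k K] (v : DV k K) (κ : Type)
  [Finite κ] (P : κ → K), (P = 0 → mo v P = 0) ∧
  (P ≠ 0 → (∀ i, ge v (mo v P) (P i)) ∧ (∃ i, P i ≠ 0 ∧ v.ord (P i) = mo v P) ∧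
    (∀ a : ℤ, (∀ i, ge v a (P i)) → a ≤ mo v P) ∧
    (∀ c : K, c ≠ 0 → mo v (c • P) = v.ord c + mo v P) ∧
    ∀ (κ' : Type) [Finite κ'] (Q : κ' → K), Q ≠ 0 →
      mo v (fun ij : κ × κ' => P ij.1 * Q ij.2) = mo v P + mo v Q)

/-- HG: heights -/
def T_HG : Prop := ∀ (k K : Type) [Field k] [IsAlgClosed k] [CharZero k] [Field K] [Algebra k K]
  [Algebra.EssFiniteType k K], Algebra.trdeg k K = 1 → ∀ (κ : Type) [Fintype κ] (P : κ → K),
  {v : DV k K | mo v P ≠ 0}.Finite ∧ 0 ≤ hgt k P ∧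
  (∀ c : K, c ≠ 0 → hgt k (c • P) = hgt k P) ∧
  (∀ a : κ → k, hgt k (fun i => algebraMap k K (a i)) = 0) ∧
  (∀ i, P i ≠ 0 → hgt k P = deg k fun j => P j / P i) ∧
  (∀ i, P i = 1 → hgt k P = deg k P) ∧
  (P ≠ 0 → ∀ (κ' : Type) [Fintype κ'] (Q : κ' → K), Q ≠ 0 →
    hgt k (fun ij : κ × κ' => P ij.1 * Q ij.2) = hgt k P + hgt k Q) ∧
  (∀ (κ' : Type) [Fintype κ'] (A : Matrix κ' κ k),
    Matrix.mulVec (A.map (algebraMap k K)) P ≠ 0 →
    hgt k (Matrix.mulVec (A.map (algebraMap k K)) P) ≤ hgt k P)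

/-- CBM: minors and change of basis -/
def T_CBM : Prop := ∀ (K : Type) [Field K] (m : ℕ) (ι : Type) [Finite ι] (u : Fin m → ι → K),
  (LinearIndependent K u ↔ mnr u ≠ 0) ∧
  ∀ A : Matrix (Fin m) (Fin m) K, mnr (fun a i => ∑ b, A a b * u b i) = A.det • mnr u

/-- PBA: primitive families exist and can be extended. Take columns `J` with a minor of minimal
order and the reduced echelon basis. A family of integral vectors is primitive if and only if its
reduction modulo `v` is independent. -/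
def T_PBA : Prop := ∀ (k K : Type) [Field k] [IsAlgClosed k] [CharZero k] [Field K] [Algebra k K]
  [Algebra.EssFiniteType k K], Algebra.trdeg k K = 1 → ∀ (v : DV k K) (ι : Type) [Finite ι]
  (m : ℕ) (b : Fin m → ι → K) (U : Submodule K (ι → K)), Prm v b →
  Submodule.span K (Set.range b) ≤ U →
  ∃ (m' : ℕ) (c : Fin m' → ι → K), Prm v (Fin.append b c) ∧
    Submodule.span K (Set.range (Fin.append b c)) = U

/-- PSA: primitive families are saturated, and conversely -/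
def T_PSA : Prop := ∀ (k K : Type) [Field k] [IsAlgClosed k] [CharZero k] [Field K] [Algebra k K]
  [Algebra.EssFiniteType k K], Algebra.trdeg k K = 1 → ∀ (v : DV k K) (ι : Type) [Finite ι]
  (m : ℕ) (u : Fin m → ι → K), (∀ a i, ge v 0 (u a i)) →
  (Prm v u ↔ ∀ c : Fin m → K, (∀ i, ge v 0 (∑ a, c a * u a i)) → ∀ a, ge v 0 (c a)) ∧
  (Prm v u ↔ ∀ c : Fin m → k, (∀ i, ge v 1 (∑ a, algebraMap k K (c a) * u a i)) → c = 0)

/-- DGB: the degree does not depend on the basis -/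
def T_DGB : Prop := ∀ (k K : Type) [Field k] [IsAlgClosed k] [CharZero k] [Field K] [Algebra k K]
  [Algebra.EssFiniteType k K], Algebra.trdeg k K = 1 → ∀ (ι : Type) [Finite ι] (m : ℕ)
  (u : Fin m → ι → K), LinearIndependent K u →
  dg k (Submodule.span K (Set.range u)) = -hgt k (mnr u)

/-- DG0: elementary properties -/
def T_DG0 : Prop := ∀ (k K : Type) [Field k] [IsAlgClosed k] [CharZero k] [Field K] [Algebra k K]
  [Algebra.EssFiniteType k K], Algebra.trdeg k K = 1 → ∀ (ι : Type) [Finite ι],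
  dg k (⊥ : Submodule K (ι → K)) = 0 ∧ dg k (⊤ : Submodule K (ι → K)) = 0 ∧
  (∀ U : Submodule K (ι → K), dg k U ≤ 0) ∧
  (∀ (m : ℕ) (u : Fin m → ι → K), LinearIndependent K u →
    -∑ a, hgt k (u a) ≤ dg k (Submodule.span K (Set.range u))) ∧
  ∀ u : ι → K, u ≠ 0 → dg k (Submodule.span K {u}) = -hgt k u

/-- SUP: the degree is supermodular -/
def T_SUP : Prop := ∀ (k K : Type) [Field k] [IsAlgClosed k] [CharZero k] [Field K] [Algebra k K]
  [Algebra.EssFiniteType k K], Algebra.trdeg k K = 1 → ∀ (ι : Type) [Finite ι]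
  (U U' : Submodule K (ι → K)), dg k U + dg k U' ≤ dg k (U ⊓ U') + dg k (U ⊔ U')

/-- CST: constant injective maps preserve the degree -/
def T_CST : Prop := ∀ (k K : Type) [Field k] [IsAlgClosed k] [CharZero k] [Field K] [Algebra k K]
  [Algebra.EssFiniteType k K], Algebra.trdeg k K = 1 → ∀ (ι ι' : Type) [Fintype ι] [Finite ι']
  (A : Matrix ι' ι k), (∀ c : ι → k, Matrix.mulVec A c = 0 → c = 0) → ∀ U : Submodule K (ι → K),
  dg k (U.map (Matrix.mulVecLin (A.map (algebraMap k K)))) = dg k U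

/-- DUA: the degree of the kernel of a matrix is the degree of its row space -/
def T_DUA : Prop := ∀ (k K : Type) [Field k] [IsAlgClosed k] [CharZero k] [Field K] [Algebra k K]
  [Algebra.EssFiniteType k K], Algebra.trdeg k K = 1 → ∀ (ι : Type) [Fintype ι] (m : ℕ)
  (u : Fin m → ι → K), LinearIndependent K u →
  dg k (LinearMap.ker (Matrix.mulVecLin (Matrix.of u))) = -hgt k (mnr u)

/-- QDD: degrees of quotients and alternating forms -/
def T_QDD : Prop := ∀ (k K : Type) [Field k] [IsAlgClosed k] [CharZero k] [Field K] [Algebra k K]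
  [Algebra.EssFiniteType k K], Algebra.trdeg k K = 1 → ∀ (ι : Type) [Finite ι]
  (T M : Submodule K (ι → K)) (e : ℕ), T ≤ M → Module.finrank K T + e = Module.finrank K M →
  ∀ ω : M [⋀^Fin e]→ₗ[K] K, ω ≠ 0 → (∀ g : Fin e → M, (∃ i, ((g i : M) : ι → K) ∈ T) → ω g = 0) →
  ∀ b : DV k K → ℤ, {v | b v ≠ 0}.Finite →
  (∀ (v : DV k K) (g : Fin e → M), (∀ i j, ge v 0 (((g i : M) : ι → K) j)) → ge v (b v) (ω g)) →
  dg k M - dg k T ≤ -∑ᶠ v, b v

/-- GAU: Gauss lemma -/
def T_GAU : Prop := ∀ (k K : Type) [Field k] [IsAlgClosed k] [CharZero k] [Field K] [Algebra k K]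
  [Algebra.EssFiniteType k K], Algebra.trdeg k K = 1 → ∀ (n a b : ℕ)
  (p : MvPolynomial (Fin (n + 1)) K), p ≠ 0 → p.IsHomogeneous b →
  ∀ W ≤ Sd K n a, dS k n (a + b) (mulW p W) = dS k n a W - Module.finrank K W * hF k b p

/-- MUL: products with constant forms -/
def T_MUL : Prop := ∀ (k K : Type) [Field k] [IsAlgClosed k] [CharZero k] [Field K] [Algebra k K]
  [Algebra.EssFiniteType k K], Algebra.trdeg k K = 1 → ∀ (n a b : ℕ)
  (p : MvPolynomial (Fin (n + 1)) k), p ≠ 0 → p.IsHomogeneous b →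
  ∀ W ≤ Sd K n a, dS k n (a + b) (mulW (up K p) W) = dS k n a W

/-- SBS: substitution of independent constant linear forms -/
def T_SBS : Prop := ∀ (k K : Type) [Field k] [IsAlgClosed k] [CharZero k] [Field K] [Algebra k K]
  [Algebra.EssFiniteType k K], Algebra.trdeg k K = 1 → ∀ (m n a : ℕ)
  (l : Fin (m + 1) → Fin (n + 1) → k), LinearIndependent k l →
  ∀ W ≤ Sd K m a, dS k n a (W.map (sbs fun i => ul K (l i)).toLinearMap) = dS k m a W

/-- DSP: properties of `dS`; the degree of the space of forms which vanish at `x` -/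
def T_DSP : Prop := ∀ (k K : Type) [Field k] [IsAlgClosed k] [CharZero k] [Field K] [Algebra k K]
  [Algebra.EssFiniteType k K], Algebra.trdeg k K = 1 → ∀ n d : ℕ,
  dS k n d (⊥ : Submodule K (MvPolynomial (Fin (n + 1)) K)) = 0 ∧ dS k n d (Sd K n d) = 0 ∧
  (∀ W : Submodule K (MvPolynomial (Fin (n + 1)) K), dS k n d W ≤ 0) ∧
  (∀ W ≤ Sd K n d, ∀ W' ≤ Sd K n d, dS k n d W + dS k n d W' ≤
    dS k n d (W ⊓ W') + dS k n d (W ⊔ W')) ∧
  (∀ G : MvPolynomial (Fin (n + 1)) K, G ≠ 0 → G.IsHomogeneous d →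
    dS k n d (Submodule.span K {G}) = -hF k d G) ∧
  ∀ x : Fin (n + 1) → K, x ≠ 0 → dS k n d (Md d x) = -(d * hgt k x) ∧
    Module.finrank K (Md d x) + 1 = Module.finrank K (Sd K n d)

end Pool.Agent.H30.EE
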