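import Pool.Agent.H30.EE.TargetsH

/-!
# MP_70ba79_ag: targets of the board `ee_modules`, part P (Harder-Narasimhan pieces and plane
sections, sections 2 and 3)
-/

set_option autoImplicit false

namespace Pool.Agent.H30.EE

open MvPolynomial SC Pool.Agent.H27.LV Pool.Agent.H17.VG

/-- HNE: existence of the largest maximiser (values are `≤ μ dim M` and discrete; sums of
maximisers are maximisers) -/
def T_HNE : Prop := ∀ (K V : Type) [Field K] [AddCommGroup V] [Module K V] (M : Submodule K V)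
  [FiniteDimensional K M] (φ : Submodule K V → ℤ) (μ : ℚ), 0 ≤ μ → (∀ U ≤ M, φ U ≤ 0) →
  (∀ U ≤ M, ∀ U' ≤ M, φ U + φ U' ≤ φ (U ⊓ U') + φ (U ⊔ U')) → ∃ J, IsJ φ μ M J

/-- HNB: properties (2b), (2c), (2e) -/
def T_HNB : Prop := ∀ (K V : Type) [Field K] [AddCommGroup V] [Module K V] (M : Submodule K V)
  [FiniteDimensional K M] (φ : Submodule K V → ℤ) (μ : ℚ) (J : Submodule K V),
  (∀ U ≤ M, ∀ U' ≤ M, φ U + φ U' ≤ φ (U ⊓ U') + φ (U ⊔ U')) → IsJ φ μ M J →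
  μ * ((Module.finrank K M : ℚ) - Module.finrank K J) ≤ φ J - φ M ∧
  (∀ U ≤ M, (∀ U' ≤ U, fmu φ μ U' ≤ fmu φ μ U) → U ≤ J) ∧
  ∀ h : ℚ, (∀ U ≤ M, -(h * ((Module.finrank K M : ℚ) - Module.finrank K U)) ≤ φ M - φ U) →
    ∀ T ≤ M, φ T - φ M - μ * ((Module.finrank K M : ℚ) - Module.finrank K T) ≤
      (h - μ) * ((Module.finrank K M : ℚ) - Module.finrank K J)

/-- QSL: (2f), quotients of `Md d x` -/
def T_QSL : Prop := ∀ (k K : Type) [Field k] [IsAlgClosed k] [CharZero k] [Field K] [Algebra k K]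
  [Algebra.EssFiniteType k K], Algebra.trdeg k K = 1 → ∀ (n d : ℕ) (x : Fin (n + 1) → K), x ≠ 0 →
  ∀ U ≤ Md d x, -(hgt k x * ((Module.finrank K (Md d x) : ℤ) - Module.finrank K U)) ≤
    dS k n d (Md d x) - dS k n d U

/-- JML: products with constant forms (2d) -/
def T_JML : Prop := ∀ (k K : Type) [Field k] [IsAlgClosed k] [CharZero k] [Field K] [Algebra k K]
  [Algebra.EssFiniteType k K], Algebra.trdeg k K = 1 → ∀ (n a b : ℕ) (x : Fin (n + 1) → K)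
  (μ : ℚ) (J J' : Submodule K (MvPolynomial (Fin (n + 1)) K)), x ≠ 0 →
  IsJ (dS k n a) μ (Md a x) J → IsJ (dS k n (a + b)) μ (Md (a + b) x) J' →
  ∀ G : MvPolynomial (Fin (n + 1)) k, G ≠ 0 → G.IsHomogeneous b → mulW (up K G) J ≤ J'

/-- JSB: substitutions (2d) -/
def T_JSB : Prop := ∀ (k K : Type) [Field k] [IsAlgClosed k] [CharZero k] [Field K] [Algebra k K]
  [Algebra.EssFiniteType k K], Algebra.trdeg k K = 1 → ∀ (m n a : ℕ) (x : Fin (n + 1) → K)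
  (μ : ℚ) (l : Fin (m + 1) → Fin (n + 1) → k) (J : Submodule K (MvPolynomial (Fin (m + 1)) K))
  (J' : Submodule K (MvPolynomial (Fin (n + 1)) K)), LinearIndependent k l →
  IsJ (dS k m a) μ (Md a fun i => el (l i) x) J → IsJ (dS k n a) μ (Md a x) J' →
  J.map (sbs fun i => ul K (l i)).toLinearMap ≤ J'

/-- JCO: codimension -/
def T_JCO : Prop := ∀ (k K : Type) [Field k] [IsAlgClosed k] [CharZero k] [Field K] [Algebra k K]
  [Algebra.EssFiniteType k K], Algebra.trdeg k K = 1 → ∀ (n a : ℕ) (x : Fin (n + 1) → K)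
  (μ : ℚ) (J : Submodule K (MvPolynomial (Fin (n + 1)) K)), x ≠ 0 → 0 ≤ μ →
  IsJ (dS k n a) μ (Md a x) J →
  μ * ((Module.finrank K (Sd K n a) : ℚ) - Module.finrank K J) ≤ μ + a * hgt k x

/-- P3A: (3a) -/
def T_P3A : Prop := ∀ (k K : Type) [Field k] [IsAlgClosed k] [CharZero k] [Field K] [Algebra k K]
  [Algebra.EssFiniteType k K], Algebra.trdeg k K = 1 → ∀ (n a d : ℕ) (x : Fin (n + 1) → K)
  (μ : ℚ) (J : ℕ → Submodule K (MvPolynomial (Fin (n + 1)) K)), x ≠ 0 → 0 < μ →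
  (∀ m, IsJ (dS k n m) μ (Md m x) (J m)) → 1 ≤ a → 2 * a ≤ d + 1 →
  μ + (2 * a - 2) * hgt k x < μ * ((Module.finrank K (Sd K n d) : ℚ) - Module.finrank K (J d)) →
  ∀ l : Fin (n + 1) → k,
    J (2 * a - 1) ⊔ mulW (lin (ul K l)) (Sd K n (2 * a - 2)) ≠ Sd K n (2 * a - 1)

/-- P3B: (3b), choice of `l_0`, `l_1` -/
def T_P3B : Prop := ∀ (k K : Type) [Field k] [IsAlgClosed k] [CharZero k] [Field K] [Algebra k K]
  [Algebra.EssFiniteType k K], Algebra.trdeg k K = 1 → ∀ (n m : ℕ) (x : Fin (n + 1) → K), x ≠ 0 →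
  ∀ A ≤ Sd K n (m + 1),
  (∀ l : Fin (n + 1) → k, A ⊔ mulW (lin (ul K l)) (Sd K n m) ≠ Sd K n (m + 1)) →
  ∃ l0 l1 : Fin (n + 1) → k, el l0 x ≠ 0 ∧
    (∀ l : Fin (n + 1) → k, Module.finrank K ↥(A ⊔ mulW (lin (ul K l)) (Sd K n m)) ≤
      Module.finrank K ↥(A ⊔ mulW (lin (ul K l0)) (Sd K n m))) ∧
    lin (ul K l1) ^ (m + 1) ∉ A ⊔ mulW (lin (ul K l0)) (Sd K n m) ∧
    hgt k ![el l0 x, el l1 x] = hgt k x

/-- KOS: two relatively prime forms of degree `a` in three variables -/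
def T_KOS : Prop := ∀ (K : Type) [Field K] (a m : ℕ) (G G' : MvPolynomial (Fin 3) K),
  G.IsHomogeneous a → G'.IsHomogeneous a → G ≠ 0 → G' ≠ 0 → IsRelPrime G G' → a ≤ m + 2 →
  Module.finrank K ↥(mulW (n := 2) G (Sd K 2 m) ⊔ mulW (n := 2) G' (Sd K 2 m)) + a ^ 2 =
    Module.finrank K (Sd K 2 (m + a))

/-- LNE: a constant line without common zeros of `G` and `G'` -/
def T_LNE : Prop := ∀ (k K : Type) [Field k] [Infinite k] [Field K] [Algebra k K] (a : ℕ)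
  (G G' : MvPolynomial (Fin 3) K), 1 ≤ a → G.IsHomogeneous a → G'.IsHomogeneous a → G ≠ 0 →
  G' ≠ 0 → IsRelPrime G G' → ∃ l : Fin 3 → k,
    mulW (n := 2) G (Sd K 2 (a - 1)) ⊔ mulW (n := 2) G' (Sd K 2 (a - 1)) ⊔
      mulW (n := 2) (lin (ul K l)) (Sd K 2 (2 * a - 2)) = Sd K 2 (2 * a - 1)

/-- PEN: the same for almost all lines of a pencil -/
def T_PEN : Prop := ∀ (k K : Type) [Field k] [Infinite k] [Field K] [Algebra k K] (a : ℕ)
  (G G' : MvPolynomial (Fin 3) K) (l l0 : Fin 3 → k), 1 ≤ a → G.IsHomogeneous a →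
  G'.IsHomogeneous a →
  mulW (n := 2) G (Sd K 2 (a - 1)) ⊔ mulW (n := 2) G' (Sd K 2 (a - 1)) ⊔
    mulW (n := 2) (lin (ul K l)) (Sd K 2 (2 * a - 2)) = Sd K 2 (2 * a - 1) →
  {t : k | mulW (n := 2) G (Sd K 2 (a - 1)) ⊔ mulW (n := 2) G' (Sd K 2 (a - 1)) ⊔
    mulW (n := 2) (lin (ul K (l0 + t • l))) (Sd K 2 (2 * a - 2)) ≠ Sd K 2 (2 * a - 1)}.Finite

/-- SEM: semicontinuity -/
def T_SEM : Prop := ∀ (k K V W : Type) [Field k] [Field K] [Algebra k K] [AddCommGroup V]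
  [Module K V] [FiniteDimensional K V] [AddCommGroup W] [Module K W] [FiniteDimensional K W]
  (E0 E1 : V →ₗ[K] W) (w : W),
  (∀ t : k, Module.finrank K (LinearMap.range (E0 + algebraMap k K t • E1)) ≤
    Module.finrank K (LinearMap.range E0)) →
  {t : k | w ∈ LinearMap.range (E0 + algebraMap k K t • E1)}.Infinite → w ∈ LinearMap.range E0

/-- PRI: a common prime factor, or two relatively prime elements -/
def T_PRI : Prop := ∀ (K : Type) [Field K] [Infinite K] (n a : ℕ),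
  ∀ W ≤ Sd K n a, W ≠ ⊥ → (∃ p, Irreducible p ∧ ∀ G ∈ W, p ∣ G) ∨
    ∃ G ∈ W, ∃ G' ∈ W, G ≠ 0 ∧ G' ≠ 0 ∧ IsRelPrime G G'

/-- COM: the claim in (3c): a common prime factor -/
def T_COM : Prop := ∀ (k K : Type) [Field k] [IsAlgClosed k] [CharZero k] [Field K] [Algebra k K]
  [Algebra.EssFiniteType k K], Algebra.trdeg k K = 1 → ∀ (n a : ℕ) (x : Fin (n + 1) → K)
  (μ : ℚ) (J J1 : Submodule K (MvPolynomial (Fin (n + 1)) K)) (l0 l1 l : Fin (n + 1) → k),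
  x ≠ 0 → 1 ≤ a → IsJ (dS k n a) μ (Md a x) J →
  IsJ (dS k n (2 * a - 1)) μ (Md (2 * a - 1) x) J1 →
  (∀ l : Fin (n + 1) → k, Module.finrank K ↥(J1 ⊔ mulW (lin (ul K l)) (Sd K n (2 * a - 2))) ≤
      Module.finrank K ↥(J1 ⊔ mulW (lin (ul K l0)) (Sd K n (2 * a - 2)))) →
  lin (ul K l1) ^ (2 * a - 1) ∉ J1 ⊔ mulW (lin (ul K l0)) (Sd K n (2 * a - 2)) →
  LinearIndependent k ![l0, l1, l] → ∀ JL : Submodule K (MvPolynomial (Fin 3) K), JL ≠ ⊥ →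
  IsJ (dS k 2 a) μ (Md (n := 2) a ![el l0 x, el l1 x, el l x]) JL →
  ∃ p, Irreducible p ∧ ∀ G ∈ JL, p ∣ G

/-- LPA: Lemma P (3d), structure -/
def T_LPA : Prop := ∀ (k K : Type) [Field k] [IsAlgClosed k] [CharZero k] [Field K] [Algebra k K]
  [Algebra.EssFiniteType k K], Algebra.trdeg k K = 1 → ∀ (n a : ℕ) (y : Fin (n + 1) → K) (μ : ℚ)
  (J : Submodule K (MvPolynomial (Fin (n + 1)) K)), 1 ≤ n → y ≠ 0 → J ≠ ⊥ →
  IsJ (dS k n a) μ (Md a y) J → ∀ p, Irreducible p → (∀ G ∈ J, p ∣ G) →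
  ∃ b, 1 ≤ b ∧ b ≤ a ∧ p.IsHomogeneous b ∧ eval y p = 0 ∧ J = mulW p (Sd K n (a - b)) ∧
    (hF k b p : ℚ) ≤ μ

/-- LPB: Lemma P (3d), numbers -/
def T_LPB : Prop := ∀ (k K : Type) [Field k] [IsAlgClosed k] [CharZero k] [Field K] [Algebra k K]
  [Algebra.EssFiniteType k K], Algebra.trdeg k K = 1 → ∀ (a b B : ℕ) (y : Fin 3 → K) (μ : ℚ)
  (p : MvPolynomial (Fin 3) K), y ≠ 0 → 1 ≤ b → b ≤ a → 2 * B + 2 ≤ a → 0 < μ →
  p.IsHomogeneous b → p ≠ 0 → IsJ (dS k 2 a) μ (Md (n := 2) a y) (mulW (n := 2) p (Sd K 2 (a - b))) →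
  (a : ℚ) * hgt k y < μ * (a * (B + 1) - (B + 1) * (B - 2) / 2 - 1) →
  b ≤ B ∧ a * hF (n := 2) k b p ≤ 8 * hgt k y

/-- PP3: Proposition 3 -/
def T_PP3 : Prop := ∀ (k K : Type) [Field k] [IsAlgClosed k] [CharZero k] [Field K] [Algebra k K]
  [Algebra.EssFiniteType k K], Algebra.trdeg k K = 1 → ∀ (n a d B : ℕ) (x : Fin (n + 1) → K)
  (μ : ℚ), 0 < hgt k x → 1 ≤ B → 2 * B + 2 ≤ a → 2 * a ≤ d + 1 → 0 < μ →
  (a : ℚ) * hgt k x < μ * (a * (B + 1) - (B + 1) * (B - 2) / 2 - 1) →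
  ∀ J : Submodule K (MvPolynomial (Fin (n + 1)) K), IsJ (dS k n d) μ (Md d x) J →
  (2 * a - 2 : ℚ) * hgt k x < μ * ((Module.finrank K (Md d x) : ℚ) - Module.finrank K J) →
  ∃ l0 l1 : Fin (n + 1) → k, el l0 x ≠ 0 ∧ hgt k ![el l0 x, el l1 x] = hgt k x ∧
    ∀ l : Fin (n + 1) → k, ∃ (b : ℕ) (g : MvPolynomial (Fin 3) K), b ≤ B ∧ g ≠ 0 ∧
      g.IsHomogeneous b ∧ a * hF (n := 2) k b g ≤ 8 * hgt k x ∧
      eval ![el l0 x, el l1 x, el l x] g = 0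

end Pool.Agent.H30.EE
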