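import Pool.Agent.H30.EE.TargetsH
import Pool.Agent.H17.BO.TargetsD

/-!
# MP_70ba79_ag: targets of the board `ee_modules`, part U (small relations, section 4)
-/

set_option autoImplicit false

namespace Pool.Agent.H30.EE

open MvPolynomial SC Pool.Agent.H27.LV Pool.Agent.H17.VG Pool.Agent.H17.BO

/-- `c` is good: the combination `∑ c_i w_i` has the largest possible poles -/
def GoodC (k : Type) {E : Type} [Field k] [Field E] [Algebra k E] {m : ℕ} (w : Fin (m + 1) → E)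
    (c : Fin (m + 1) → ℤ) : Prop := h1 k (∑ i, (c i : E) * w i) = deg k w

/-- UGC: good combinations -/
def T_UGC : Prop := ∀ (k E : Type) [Field k] [IsAlgClosed k] [CharZero k] [Field E] [Algebra k E]
  [Algebra.EssFiniteType k E], Algebra.trdeg k E = 1 → ∀ (m : ℕ) (w : Fin (m + 1) → E),
  (∃ c, GoodC k w c) ∧ ∀ c, GoodC k w c → ∀ i,
    {j : ℤ | ¬ GoodC k w (fun l => c l + if l = i then j else 0)}.Finite

/-- UPE: a good primitive element -/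
def T_UPE : Prop := ∀ (k E : Type) [Field k] [IsAlgClosed k] [CharZero k] [Field E] [Algebra k E]
  [Algebra.EssFiniteType k E], Algebra.trdeg k E = 1 → ∀ (m : ℕ) (w : Fin (m + 1) → E) (u : E),
  u ∉ Set.range (algebraMap k E) → ∃ c, GoodC k w c ∧ ∀ i,
    w i ∈ IntermediateField.adjoin k ({u, ∑ i, (c i : E) * w i} : Set E)

/-- UFR: the number of poles is the degree of the field extension -/
def T_UFR : Prop := ∀ (k E : Type) [Field k] [IsAlgClosed k] [CharZero k] [Field E] [Algebra k E]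
  [Algebra.EssFiniteType k E], Algebra.trdeg k E = 1 → ∀ t : E, t ∉ Set.range (algebraMap k E) →
  FiniteDimensional (IntermediateField.adjoin k {t}) E ∧
  h1 k t = Module.finrank (IntermediateField.adjoin k {t}) E

/-- UDG: (4.1a) -/
def T_UDG : Prop := ∀ (k E : Type) [Field k] [IsAlgClosed k] [CharZero k] [Field E] [Algebra k E]
  [Algebra.EssFiniteType k E], Algebra.trdeg k E = 1 → ∀ (m B : ℕ) (w : Fin (m + 1) → E) (u : E),
  u ∉ Set.range (algebraMap k E) → u ∈ Set.range w →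
  IntermediateField.adjoin k (Set.range w) = ⊤ →
  (∀ c : Fin (m + 1) → ℤ, ∃ (b : ℕ) (g : MvPolynomial (Fin 3) k), b ≤ B ∧ g ≠ 0 ∧
    g.IsHomogeneous b ∧ aeval ![1, u, ∑ i, (c i : E) * w i] g = 0) → deg k w ≤ B

/-- UJT: (4.1b), jets -/
def T_UJT : Prop := ∀ (k E : Type) [Field k] [IsAlgClosed k] [CharZero k] [Field E] [Algebra k E]
  [Algebra.EssFiniteType k E], Algebra.trdeg k E = 1 → ∀ (m : ℕ) (w : Fin (m + 1) → E),
  LinearIndependent k w → m ≤ deg k w ∧ ∀ (v v' : DV k E), v ≠ v' → poleOrder v w = 0 →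
    poleOrder v' w = 0 → ∀ i ≤ m, ∃ f ∈ Submodule.span k (Set.range w), f ≠ 0 ∧
      (i : ℤ) ≤ v.ord f ∧ ((m - i : ℕ) : ℤ) ≤ v'.ord f

/-- URN: (4.1c), the rational normal curve -/
def T_URN : Prop := ∀ (k E : Type) [Field k] [IsAlgClosed k] [CharZero k] [Field E] [Algebra k E]
  [Algebra.EssFiniteType k E], Algebra.trdeg k E = 1 → ∀ (m : ℕ) (w : Fin (m + 1) → E), 1 ≤ m →
  LinearIndependent k w → deg k w = m →
  ∃ (s f : E) (z : Fin (m + 1) → Fin (m + 1) → k), LinearIndependent k z ∧ f ≠ 0 ∧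
    s ∉ Set.range (algebraMap k E) ∧ ∀ j, w j = f * ∑ i, algebraMap k E (z i j) * s ^ (i : ℕ)

/-- UQS: (4.1d), quadratic forms. `k0` is algebraically closed in `L`, the `z i j` are algebraic
over `k0`, `s` is not. -/
def T_UQS : Prop := ∀ (k0 L Ω : Type) [Field k0] [CharZero k0] [Field L] [Field Ω] [Algebra k0 L]
  [Algebra L Ω] [Algebra k0 Ω] [IsScalarTower k0 L Ω],
  (∀ a : L, IsAlgebraic k0 a → a ∈ Set.range (algebraMap k0 L)) → ∀ (m : ℕ)
  (y : Fin (m + 1) → L) (z : Fin (m + 1) → Fin (m + 1) → Ω) (s f : Ω),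
  (∀ i j, IsAlgebraic k0 (z i j)) → ¬ IsAlgebraic k0 s → f ≠ 0 → LinearIndependent Ω z →
  (∀ j, algebraMap L Ω (y j) = f * ∑ i, z i j * s ^ (i : ℕ)) →
  ∃ (M : ℕ) (q : Fin M → Mon (m + 1) 2 → k0), M + (2 * m + 1) = Fintype.card (Mon (m + 1) 2) ∧
    LinearIndependent k0 q ∧ ∀ l, resC z (frm fun a => algebraMap k0 Ω (q l a)) = 0

/-- SHF: shift of the parameter -/
def T_SHF : Prop := ∀ (K : Type) [Field K] [CharZero K] (r n : ℕ)
  (z : Fin (r + 1) → Fin (n + 1) → K) (s : K), LinearIndependent K z →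
  ∃ z' : Fin (r + 1) → Fin (n + 1) → K, LinearIndependent K z' ∧
    (∀ j, z' 0 j = ∑ i : Fin (r + 1), s ^ (i : ℕ) * z i j) ∧
    Submodule.span K (Set.range z') = Submodule.span K (Set.range z) ∧
    ∀ G : MvPolynomial (Fin (n + 1)) K, resC z' G = (resC z G).comp (Polynomial.X + Polynomial.C s)

/-- REP: change of the parameter which fixes the base point -/
def T_REP : Prop := ∀ (K : Type) [Field K] [CharZero K] (r n : ℕ)
  (z : Fin (r + 1 + 1) → Fin (n + 1) → K) (a b : K), a ≠ 0 → LinearIndependent K z →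
  ∃ z' : Fin (r + 1 + 1) → Fin (n + 1) → K, LinearIndependent K z' ∧ z' 0 = z 0 ∧
    z' 1 = a • z 1 + ((r + 1 : ℕ) * b) • z 0 ∧
    Submodule.span K (Set.range z') = Submodule.span K (Set.range z) ∧
    ∀ (G : MvPolynomial (Fin (n + 1)) K) (d : ℕ), G.IsHomogeneous d →
      ∀ t : K, 1 + b * t ≠ 0 → (resC z' G).eval t =
        (1 + b * t) ^ ((r + 1) * d) * (resC z G).eval (a * t / (1 + b * t))

/-- TAN: the tangent line at the base point -/
def T_TAN : Prop := ∀ (K : Type) [Field K] [CharZero K] (r n : ℕ)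
  (z : Fin (r + 1 + 1) → Fin (n + 1) → K), LinearIndependent K z →
  (∀ G : MvPolynomial (Fin (n + 1)) K, G.IsHomogeneous 2 → resC z G = 0 →
    eval (z 0) (dir (z 1) G) = 0) ∧
  ∀ w ∈ Submodule.span K (Set.range z), (∀ G : MvPolynomial (Fin (n + 1)) K, G.IsHomogeneous 2 →
    resC z G = 0 → eval (z 0) (dir w G) = 0) → w ∈ Submodule.span K {z 0, z 1}

/-- UNQ: uniqueness of the parametrisation -/
def T_UNQ : Prop := ∀ (K : Type) [Field K] [CharZero K] (r n : ℕ)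
  (z z' : Fin (r + 1 + 1) → Fin (n + 1) → K), LinearIndependent K z → LinearIndependent K z' →
  Submodule.span K (Set.range z') ≤ Submodule.span K (Set.range z) → z' 0 = z 0 → z' 1 = z 1 →
  (∀ G : MvPolynomial (Fin (n + 1)) K, G.IsHomogeneous 2 → resC z G = 0 → resC z' G = 0) →
  z' = z

/-- QDM: dimension of the space of quadratic forms which vanish on a rational normal curve, in
general: restriction of forms of degree `a` to the curve is onto -/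
def T_QDM : Prop := ∀ (K : Type) [Field K] (r n a : ℕ) (z : Fin (r + 1) → Fin (n + 1) → K),
  LinearIndependent K z →
  (∀ P : Polynomial K, P.natDegree ≤ r * a → ∃ G : MvPolynomial (Fin (n + 1)) K,
    G.IsHomogeneous a ∧ resC z G = P) ∧
  (∀ G : MvPolynomial (Fin (n + 1)) K, G.IsHomogeneous a → (resC z G).natDegree ≤ r * a) ∧
  Module.finrank K (Iz a z) + (r * a + 1) = Module.finrank K (Sd K n a) ∧
  LinearIndependent K (RM a z)

/-- UDC: (4.1e), descent of the parametrisation -/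
def T_UDC : Prop := ∀ (L : Type) [Field L] [CharZero L] (m M : ℕ)
  (q : Fin M → Mon (m + 1) 2 → L) (y : Fin (m + 1) → L)
  (z : Fin (m + 1) → Fin (m + 1) → AlgebraicClosure L), 1 ≤ m →
  M + (2 * m + 1) = Fintype.card (Mon (m + 1) 2) → LinearIndependent L q →
  LinearIndependent (AlgebraicClosure L) z → (∀ j, z 0 j = algebraMap L (AlgebraicClosure L) (y j)) →
  (∀ l, resC z (frm fun a => algebraMap L (AlgebraicClosure L) (q l a)) = 0) →
  ∃ z' : Fin (m + 1) → Fin (m + 1) → L, LinearIndependent L z' ∧ z' 0 = y ∧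
    ∀ l, resC z' (frm (q l)) = 0

/-- L41: Lemma 4.1 -/
def T_L41 : Prop := ∀ (k0 L : Type) [Field k0] [CharZero k0] [Field L] [Algebra k0 L],
  (∀ a : L, IsAlgebraic k0 a → a ∈ Set.range (algebraMap k0 L)) → ∀ (m B : ℕ)
  (y : Fin (m + 1) → L), 1 ≤ B → B ≤ m → y 0 ≠ 0 → y 1 / y 0 ∉ Set.range (algebraMap k0 L) →
  (∀ c : Fin (m + 1) → ℤ, ∃ (b : ℕ) (g : MvPolynomial (Fin 3) k0), b ≤ B ∧ g ≠ 0 ∧
    g.IsHomogeneous b ∧ aeval ![y 0, y 1, ∑ i, (c i : L) * y i] g = 0) →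
  ¬ LinearIndependent k0 y ∨ (m = B ∧ ∃ (M : ℕ) (q : Fin M → Mon (m + 1) 2 → k0)
    (z : Fin (m + 1) → Fin (m + 1) → L), M + (2 * m + 1) = Fintype.card (Mon (m + 1) 2) ∧
    LinearIndependent k0 q ∧ LinearIndependent L z ∧ z 0 = y ∧
    ∀ l, resC z (frm fun a => algebraMap k0 L (q l a)) = 0)

/-- TRR: transfer of relations from the ultraproduct -/
def T_TRR : Prop := ∀ (k K : ℕ → Type) [∀ i, Field (k i)] [∀ i, IsAlgClosed (k i)]
  [∀ i, CharZero (k i)] [∀ i, Field (K i)] [∀ i, Algebra (k i) (K i)]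
  [∀ i, Algebra.EssFiniteType (k i) (K i)], (∀ i, Algebra.trdeg (k i) (K i) = 1) →
  ∀ (B : ℕ → ℕ) (L : Type) [Field L] (k' : Type) [Field k'] [Algebra k' L]
    (π : (∀ i, K i) →+* L), Function.Surjective π →
  (∀ f, π f = 0 ↔ ∀ᶠ i in (Filter.hyperfilter ℕ : Filter ℕ), f i = 0) →
  (∀ f, π f ∈ Set.range (algebraMap k' L) ↔
    ∃ N : ℕ, ∀ᶠ i in (Filter.hyperfilter ℕ : Filter ℕ), h1 (k i) (f i) ≤ N * B i) →
  ∀ (m : ℕ) (y : ∀ i, Fin (m + 1) → K i),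
  ¬ LinearIndependent k' (fun j => π fun i => y i j) →
  ∃ N : ℕ, ∀ᶠ i in (Filter.hyperfilter ℕ : Filter ℕ), ∃ a : Fin (m + 1) → K i, a ≠ 0 ∧
    ∑ j, a j * y i j = 0 ∧ hgt (k i) a ≤ N * B i

/-- TRQ: transfer of rational normal curves -/
def T_TRQ : Prop := ∀ (k K : ℕ → Type) [∀ i, Field (k i)] [∀ i, IsAlgClosed (k i)]
  [∀ i, CharZero (k i)] [∀ i, Field (K i)] [∀ i, Algebra (k i) (K i)]
  [∀ i, Algebra.EssFiniteType (k i) (K i)], (∀ i, Algebra.trdeg (k i) (K i) = 1) →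
  ∀ (B : ℕ → ℕ) (L : Type) [Field L] (k' : Type) [Field k'] [Algebra k' L]
    (π : (∀ i, K i) →+* L), Function.Surjective π →
  (∀ f, π f = 0 ↔ ∀ᶠ i in (Filter.hyperfilter ℕ : Filter ℕ), f i = 0) →
  (∀ f, π f ∈ Set.range (algebraMap k' L) ↔
    ∃ N : ℕ, ∀ᶠ i in (Filter.hyperfilter ℕ : Filter ℕ), h1 (k i) (f i) ≤ N * B i) →
  ∀ (m : ℕ) (y : ∀ i, Fin (m + 1) → K i) (M : ℕ) (q : Fin M → Mon (m + 1) 2 → k')
    (z : Fin (m + 1) → Fin (m + 1) → L), M + (2 * m + 1) = Fintype.card (Mon (m + 1) 2) →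
  LinearIndependent k' q → LinearIndependent L z → (z 0 = fun j => π fun i => y i j) →
  (∀ l, resC z (frm fun a => algebraMap k' L (q l a)) = 0) →
  ∃ N : ℕ, ∀ᶠ i in (Filter.hyperfilter ℕ : Filter ℕ),
    ∃ (q' : Fin M → Mon (m + 1) 2 → K i) (z' : Fin (m + 1) → Fin (m + 1) → K i),
      LinearIndependent (K i) q' ∧ LinearIndependent (K i) z' ∧ z' 0 = y i ∧
      (∀ l, resC z' (frm (q' l)) = 0) ∧ ∀ l, hgt (k i) (q' l) ≤ N * B i

/-- DAI: `Da` is minus the degree of the space of forms which vanish on the curve -/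
def T_DAI : Prop := ∀ (k K : Type) [Field k] [IsAlgClosed k] [CharZero k] [Field K] [Algebra k K]
  [Algebra.EssFiniteType k K], Algebra.trdeg k K = 1 → ∀ (r n a : ℕ)
  (z : Fin (r + 1) → Fin (n + 1) → K), LinearIndependent K z →
  dS k n a (Iz a z) = -Da k a z ∧ 0 ≤ Da k a z ∧ Da k 0 z = 0 ∧
  Da k 1 z = -dg k (Submodule.span K (Set.range z))

/-- L42: Lemma 4.2 -/
def T_L42 : Prop := ∀ B : ℕ, 1 ≤ B → ∃ C : ℕ, ∀ (k K : Type) [Field k] [IsAlgClosed k]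
  [CharZero k] [Field K] [Algebra k K] [Algebra.EssFiniteType k K], Algebra.trdeg k K = 1 →
  ∀ (m β : ℕ) (y : Fin (m + 1) → K), B ≤ m → m ≤ B + 1 → y 0 ≠ 0 →
  (∀ c : Fin (m + 1) → ℤ, ∃ (b : ℕ) (g : MvPolynomial (Fin 3) K), b ≤ B ∧ g ≠ 0 ∧
    g.IsHomogeneous b ∧ hF (n := 2) k b g ≤ β ∧ eval ![y 0, y 1, ∑ i, (c i : K) * y i] g = 0) →
  hgt k ![y 0, y 1] ≤ C * β ∨
  (∃ a : Fin (m + 1) → K, a ≠ 0 ∧ ∑ i, a i * y i = 0 ∧ hgt k a ≤ C * β) ∨
  (m = B ∧ ∃ z : Fin (m + 1) → Fin (m + 1) → K, LinearIndependent K z ∧ z 0 = y ∧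
    Da k 2 z ≤ C * β)

/-- a relation of height at most `ρ` -/
def Rel (k : Type) {K : Type} [Field k] [Field K] [Algebra k K] {m : ℕ} (y : Fin m → K)
    (ρ : ℤ) : Prop := ∃ a : Fin m → K, a ≠ 0 ∧ ∑ i, a i * y i = 0 ∧ hgt k a ≤ ρ

/-- CHN: the chain in the proof of Lemma 4.3 -/
def T_CHN : Prop := ∀ (k K : Type) [Field k] [Field K] [Algebra k K] (n B : ℕ)
  (x : Fin (n + 1) → K) (l0 l1 : Fin (n + 1) → k) (ρ : ℕ → ℤ), 1 ≤ B →
  ¬ Rel k ![el l0 x, el l1 x] (ρ 1) →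
  (∀ L : Fin (B + 2) → Fin (n + 1) → k, L 0 = l0 → L 1 = l1 →
    Rel k (fun i => el (L i) x) (ρ (B + 1))) →
  ∃ (r : ℕ) (L : Fin (r + 1) → Fin (n + 1) → k), 1 ≤ r ∧ r ≤ B ∧ L 0 = l0 ∧ L 1 = l1 ∧
    ¬ Rel k (fun i => el (L i) x) (ρ r) ∧
    ∀ l : Fin (n + 1) → k, Rel k (Fin.snoc (fun i => el (L i) x) (el l x) : Fin (r + 2) → K)
      (ρ (r + 1))

/-- PHI: the linear map `φ` in the proof of Lemma 4.3 -/
def T_PHI : Prop := ∀ (k K : Type) [Field k] [IsAlgClosed k] [CharZero k] [Field K] [Algebra k K]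
  [Algebra.EssFiniteType k K], Algebra.trdeg k K = 1 → ∀ (n r : ℕ) (x : Fin (n + 1) → K)
  (L : Fin (r + 1) → Fin (n + 1) → k) (ρ : ℤ), 0 ≤ ρ →
  ¬ Rel k (fun i => el (L i) x) (3 * ρ) →
  (∀ l : Fin (n + 1) → k, Rel k (Fin.snoc (fun i => el (L i) x) (el l x) : Fin (r + 2) → K) ρ) →
  ∃ c : Fin (r + 1) → Fin (n + 1) → K, (∀ j, x j = ∑ i, el (L i) x * c i j) ∧
    (∀ i i', el (L i') (c i) = if i' = i then 1 else 0) ∧
    ∀ l : Fin (n + 1) → k, hgt k (Fin.cons 1 fun i => el l (c i) : Fin (r + 2) → K) ≤ ρ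

/-- CHT: the height of the matrix `c` -/
def T_CHT : Prop := ∀ (k K : Type) [Field k] [IsAlgClosed k] [CharZero k] [Field K] [Algebra k K]
  [Algebra.EssFiniteType k K], Algebra.trdeg k K = 1 → ∀ (n r : ℕ)
  (c : Fin (r + 1) → Fin (n + 1) → K) (ρ : ℤ),
  (∀ l : Fin (n + 1) → k, hgt k (Fin.cons 1 fun i => el l (c i) : Fin (r + 2) → K) ≤ ρ) →
  hgt k (fun o : Option (Fin (r + 1) × Fin (n + 1)) => o.elim 1 fun p => c p.1 p.2) ≤ ρ ∧
  (LinearIndependent K c → -dg k (Submodule.span K (Set.range c)) ≤ (r + 1) * ρ)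

/-- D2T: transport of the height `D_2` -/
def T_D2T : Prop := ∀ (k K : Type) [Field k] [IsAlgClosed k] [CharZero k] [Field K] [Algebra k K]
  [Algebra.EssFiniteType k K], Algebra.trdeg k K = 1 → ∀ (n r : ℕ)
  (c : Fin (r + 1) → Fin (n + 1) → K) (ρ : ℤ) (w z : Fin (r + 1) → Fin (r + 1) → K),
  LinearIndependent K c → LinearIndependent K w →
  hgt k (fun o : Option (Fin (r + 1) × Fin (n + 1)) => o.elim 1 fun p => c p.1 p.2) ≤ ρ →
  LinearIndependent K (fun i j => ∑ l, w i l * c l j) ∧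
  Da k 2 (fun (i : Fin (r + 1)) (j : Fin (n + 1)) => ∑ l, w i l * c l j) ≤
    Da k 2 w + 2 * (2 * r + 1) * ρ

/-- L43: Lemma 4.3 -/
def T_L43 : Prop := ∀ B : ℕ, 1 ≤ B → ∃ C : ℕ, ∀ (k K : Type) [Field k] [IsAlgClosed k]
  [CharZero k] [Field K] [Algebra k K] [Algebra.EssFiniteType k K], Algebra.trdeg k K = 1 →
  ∀ (n β : ℕ) (x : Fin (n + 1) → K) (l0 l1 : Fin (n + 1) → k), el l0 x ≠ 0 →
  hgt k ![el l0 x, el l1 x] = hgt k x → (C * β : ℤ) < hgt k x →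
  (∀ l : Fin (n + 1) → k, ∃ (b : ℕ) (g : MvPolynomial (Fin 3) K), b ≤ B ∧ g ≠ 0 ∧
      g.IsHomogeneous b ∧ hF (n := 2) k b g ≤ β ∧ eval ![el l0 x, el l1 x, el l x] g = 0) →
  ∃ r, 1 ≤ r ∧ r ≤ B ∧ (∃ Λ : Submodule K (Fin (n + 1) → K), Module.finrank K Λ = r + 1 ∧
    x ∈ Λ ∧ -dg k Λ ≤ C * β) ∧
    (r = B → ∃ z : Fin (r + 1) → Fin (n + 1) → K, LinearIndependent K z ∧ z 0 = x ∧
      Da k 2 z ≤ C * β)

end Pool.Agent.H30.EE
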